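import Pool.Agent.KOR.Defs
import Pool.Agent.FOI.UBridge

/-!
# The compact definitions and those of the proof: polytopes, realizations, words
-/

namespace KOR

open scoped RealInnerProductSpace

noncomputable section

/-! ### polytopes -/

theorem rp_iff {d : ℕ} {P : Type} [PartialOrder P] {rk : P → ℤ} :
    RegularPolytope d rk ↔ FO2.IsRegularPolytope d rk :=
  ⟨fun h => ⟨h.bot, h.top, h.strict, h.flags, h.diamond, h.connected, h.regular⟩,
    fun h => ⟨h.bot, h.top, h.strict, h.flags, h.diamond, h.connected, h.regular⟩⟩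

/-- two faces have the same image -/
def SameImg {d : ℕ} {P : Type} [PartialOrder P] (rk : P → ℤ) (f : P → E d) : ℕ → P → P → Prop
  | 0, F, G => f F = f G
  | m + 1, F, G => (∀ F', rk F' = (m : ℤ) → F' ≤ F → ∃ G', rk G' = (m : ℤ) ∧ G' ≤ G ∧
      SameImg rk f m F' G') ∧
      (∀ G', rk G' = (m : ℤ) → G' ≤ G → ∃ F', rk F' = (m : ℤ) ∧ F' ≤ F ∧ SameImg rk f m F' G')

/-- the image of a face of rank `m + 1` as a set -/
def imgS {d : ℕ} {P : Type} [PartialOrder P] (rk : P → ℤ) (f : P → E d) (m : ℕ) (F : P) :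
    Set (Img d m) := {x | ∃ G : P, rk G = (m : ℤ) ∧ G ≤ F ∧ img rk f m G = x}

theorem img_iff {d : ℕ} {P : Type} [PartialOrder P] (rk : P → ℤ) (f : P → E d) (m : ℕ) (F G : P) :
    img rk f m F = img rk f m G ↔ SameImg rk f m F G := by
  induction m generalizing F G with
  | zero => exact Iff.rfl
  | succ m ih =>
    have key : imgS rk f m F = imgS rk f m G ↔ SameImg rk f (m + 1) F G := by
      constructor
      · intro h
        refine ⟨fun F' hF' hle => ?_, fun G' hG' hle => ?_⟩
        · have h1 : img rk f m F' ∈ imgS rk f m F := ⟨F', hF', hle, rfl⟩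
          rw [h] at h1
          obtain ⟨G', hG', hle', e⟩ := h1
          exact ⟨G', hG', hle', (ih _ _).1 e.symm⟩
        · have h1 : img rk f m G' ∈ imgS rk f m G := ⟨G', hG', hle, rfl⟩
          rw [← h] at h1
          obtain ⟨F', hF', hle', e⟩ := h1
          exact ⟨F', hF', hle', (ih _ _).1 e⟩
      · rintro ⟨h1, h2⟩
        ext x
        constructor
        · rintro ⟨F', hF', hle, rfl⟩
          obtain ⟨G', hG', hle', e⟩ := h1 F' hF' hle
          exact ⟨G', hG', hle', ((ih _ _).2 e).symm⟩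
        · rintro ⟨G', hG', hle, rfl⟩
          obtain ⟨F', hF', hle', e⟩ := h2 G' hG' hle
          exact ⟨F', hF', hle', (ih _ _).2 e⟩
    exact key

open Lib_helper64.FO in
/-- the image of a face of rank `m + 1` as a set, old version -/
def imgS' {d : ℕ} {P : Type} [PartialOrder P] (rk : P → ℤ) (f : P → E d) (m : ℕ) (F : P) :
    Set (FaceImg d m) := {x | ∃ G : P, rk G = (m : ℤ) ∧ G ≤ F ∧ faceImg rk f m G = x}

open Lib_helper64.FO in
theorem img_iff' {d : ℕ} {P : Type} [PartialOrder P] (rk : P → ℤ) (f : P → E d) (m : ℕ) (F G : P) :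
    faceImg rk f m F = faceImg rk f m G ↔ SameImg rk f m F G := by
  induction m generalizing F G with
  | zero => exact Iff.rfl
  | succ m ih =>
    have key : imgS' rk f m F = imgS' rk f m G ↔ SameImg rk f (m + 1) F G := by
      constructor
      · intro h
        refine ⟨fun F' hF' hle => ?_, fun G' hG' hle => ?_⟩
        · have h1 : faceImg rk f m F' ∈ imgS' rk f m F := ⟨F', hF', hle, rfl⟩
          rw [h] at h1
          obtain ⟨G', hG', hle', e⟩ := h1
          exact ⟨G', hG', hle', (ih _ _).1 e.symm⟩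
        · have h1 : faceImg rk f m G' ∈ imgS' rk f m G := ⟨G', hG', hle, rfl⟩
          rw [← h] at h1
          obtain ⟨F', hF', hle', e⟩ := h1
          exact ⟨F', hF', hle', (ih _ _).1 e⟩
      · rintro ⟨h1, h2⟩
        ext x
        constructor
        · rintro ⟨F', hF', hle, rfl⟩
          obtain ⟨G', hG', hle', e⟩ := h1 F' hF' hle
          exact ⟨G', hG', hle', ((ih _ _).2 e).symm⟩
        · rintro ⟨G', hG', hle, rfl⟩
          obtain ⟨F', hF', hle', e⟩ := h2 G' hG' hle
          exact ⟨F', hF', hle', (ih _ _).2 e⟩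
    exact key

theorem faithful_iff {d : ℕ} {P : Type} [PartialOrder P] {rk : P → ℤ} {f : P → E d} :
    Faithful rk f ↔ Lib_helper64.FO.Faithful rk f := by
  unfold Faithful Lib_helper64.FO.Faithful
  simp only [img_iff, img_iff']

/-- the automorphisms of a regular polytope preserve the rank -/
theorem rk_aut {d : ℕ} {P : Type} [PartialOrder P] {rk : P → ℤ} (hP : RegularPolytope d rk)
    (γ : P ≃o P) (x : P) : rk (γ x) = rk x := by
  obtain ⟨_, _, h, _⟩ := FOI.flag d P rk (rp_iff.1 hP)
  exact h γ x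

/-! ### flags -/

theorem orbits_eq {d : ℕ} {P : Type} [PartialOrder P] {rk : P → ℤ} (hP : RegularPolytope d rk)
    (f : P → E d) :
    Nat.card (Quot (SameOrbit rk f)) = Lib_helper64.FO.flagOrbits rk f := by
  have key : ∀ C D : Flag P, SameOrbit rk f C D ↔
      MulAction.orbitRel (Lib_helper64.FO.symGroup rk f) (Flag P) D C := by
    intro C D
    rw [MulAction.orbitRel_apply]
    constructor
    · rintro ⟨γ, T, hT, h⟩
      exact ⟨⟨γ, rk_aut hP γ, T, hT⟩, h⟩
    · rintro ⟨⟨γ, h1, T, hT⟩, h⟩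
      exact ⟨γ, T, hT, h⟩
  refine Nat.card_congr ?_
  refine Quot.congr (Equiv.refl _) fun C D => ?_
  rw [Equiv.refl_apply, Equiv.refl_apply]
  rw [key C D]
  exact ⟨fun h => Setoid.symm' _ h, fun h => Setoid.symm' _ h⟩

theorem isOrb_iff {d k : ℕ} {P : Type} [PartialOrder P] {rk : P → ℤ} (hP : RegularPolytope d rk)
    (f : P → E d) :
    IsOrbitRealization k rk f ↔
      FOI.Discr rk f ∧ Lib_helper64.FO.IsOrbitRealization rk f k := by
  unfold IsOrbitRealization Lib_helper64.FO.IsOrbitRealization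
  rw [orbits_eq hP, faithful_iff]
  rfl

end

end KOR
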