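import Pool.Agent.KOR.B1
import Pool.Agent.FOI.CTI

/-!
# The compact definitions and those of the proof: data and the number of classes of words
-/

namespace KOR

open scoped RealInnerProductSpace

noncomputable section

/-! ### words -/

theorem act_eq {d : ℕ} {α : Type} (φ : Fin d → α → α) (w : List (Fin d)) (x : α) :
    act φ w x = FOI.wa φ w x := rfl

theorem prod_mem {d : ℕ} {Γ : Type} [Group Γ] (x : Fin d → Γ) (w : List (Fin d)) :
    (w.map x).prod ∈ Subgroup.closure (Set.range x) := by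
  induction w with
  | nil => exact one_mem _
  | cons j w ih =>
    rw [List.map_cons, List.prod_cons]
    exact mul_mem (Subgroup.subset_closure ⟨j, rfl⟩) ih

/-- the number of classes of words is an index -/
theorem card_words {d : ℕ} {Γ : Type} [Group Γ] (x : Fin d → Γ) (hx : ∀ j, x j * x j = 1)
    (H : Subgroup Γ) (R : List (Fin d) → List (Fin d) → Prop)
    (hR : ∀ v w, R v w ↔ (v.map x).prod * ((w.map x).prod)⁻¹ ∈ H) :
    classes R = H.relIndex (Subgroup.closure (Set.range x)) := by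
  set C := Subgroup.closure (Set.range x) with hC
  set K : Subgroup C := H.subgroupOf C with hK
  have e : H.relIndex C = Nat.card (C ⧸ K) := rfl
  rw [e, classes]
  let φ : List (Fin d) → C := fun w => ⟨(w.map x).prod, prod_mem x w⟩
  have hrel : ∀ v w, R v w ↔ (QuotientGroup.mk (φ v)⁻¹ : C ⧸ K) = QuotientGroup.mk (φ w)⁻¹ := by
    intro v w
    rw [QuotientGroup.eq, hK, Subgroup.mem_subgroupOf, hR, inv_inv]
    rfl
  have hsurj : ∀ c : C ⧸ K, ∃ w, (QuotientGroup.mk (φ w)⁻¹ : C ⧸ K) = c := by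
    intro c
    obtain ⟨g, rfl⟩ := QuotientGroup.mk_surjective c
    obtain ⟨w, hw⟩ := FOI.CTI.exists_word hx (g⁻¹).2
    refine ⟨w, ?_⟩
    have : φ w = g⁻¹ := Subtype.ext hw
    rw [this, inv_inv]
  refine Nat.card_congr (Equiv.ofBijective
    (Quot.lift (fun w => (QuotientGroup.mk (φ w)⁻¹ : C ⧸ K)) fun v w h => (hrel v w).1 h) ⟨?_, ?_⟩)
  · intro a b
    refine Quot.induction_on₂ a b fun v w h => ?_
    exact Quot.sound ((hrel v w).2 h)
  · intro c
    obtain ⟨w, hw⟩ := hsurj c
    exact ⟨Quot.mk _ w, hw⟩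

/-! ### data -/

/-- a datum without the last condition -/
structure Pre (d : ℕ) (A : Type) where
  q : Fin d → A → A
  a : A
  r : A → ℝ
  sq : ∀ j x, q j (q j x) = x
  comm : ∀ i j : Fin d, i.val + 2 ≤ j.val → ∀ x, q i (q j x) = q j (q i x)
  fix : ∀ j : Fin d, 1 ≤ j.val → q j a = a
  trans : ∀ x, ∃ w : List (Fin d), act q w a = x

/-- a datum is one without the last condition -/
def Datum.pre {d : ℕ} {A : Type} (M : Datum d A) : Pre d A :=
  ⟨M.q, M.a, M.r, M.sq, M.comm, M.fix, M.trans⟩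

/-- the old form of a datum -/
def Pre.old {d : ℕ} {A : Type} (M : Pre d A) : FOI.Datum d A where
  π j := Function.Involutive.toPerm (M.q j) (M.sq j)
  a0 := M.a
  r := M.r
  sq j := Equiv.ext fun x => M.sq j x
  comm i j hij := Equiv.ext fun x => M.comm i j hij x
  fix := M.fix
  trans x := by
    obtain ⟨w, hw⟩ := M.trans x
    refine ⟨(w.map fun j => Function.Involutive.toPerm (M.q j) (M.sq j)).prod, prod_mem _ w, ?_⟩
    rw [← FOI.wa_pi]
    exact hw

theorem old_act {d : ℕ} {A : Type} (M : Pre d A) (w : List (Fin d)) (x : A) :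
    FOI.wa (fun j => M.old.π j) w x = act M.q w x := rfl

/-- the new form of a datum -/
def new {d : ℕ} {A : Type} (M : FOI.Datum d A) : Pre d A where
  q j := M.π j
  a := M.a0
  r := M.r
  sq j x := by
    have := M.sq j
    exact DFunLike.congr_fun this x
  comm i j hij x := DFunLike.congr_fun (M.comm i j hij) x
  fix := M.fix
  trans x := by
    obtain ⟨q, hq, h⟩ := M.trans x
    obtain ⟨w, hw⟩ := FOI.CTI.exists_word M.sq hq
    refine ⟨w, ?_⟩
    rw [← h, ← hw, ← FOI.wa_pi]
    rfl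

theorem new_old {d : ℕ} {A : Type} (M : FOI.Datum d A) : (new M).old = M := by
  have hπ : (new M).old.π = M.π := funext fun j => Equiv.ext fun x => rfl
  obtain ⟨π, a0, r, sq, comm, fix, trans⟩ := M
  unfold Pre.old
  rw [FOI.Datum.mk.injEq]
  exact ⟨hπ, rfl, rfl⟩

theorem inv_ap {A : Type} (p : Equiv.Perm A) (x : A) : p⁻¹ (p x) = x := p.symm_apply_apply x

theorem classesF {d : ℕ} {A : Type} (M : Pre d A) :
    classes (fun v w => ∃ s : ℝ, (s = 1 ∨ s = -1) ∧
      ∀ x, M.r (act M.q v x) = s * M.r (act M.q w x)) = M.old.HF.relIndex M.old.C := by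
  refine card_words M.old.π M.old.sq M.old.HF _ fun v w => ?_
  constructor
  · rintro ⟨s, hs, h⟩
    refine ⟨s, hs, fun x => ?_⟩
    have h1 := h ((w.map M.old.π).prod⁻¹ x)
    have h2 : act M.q w ((w.map M.old.π).prod⁻¹ x) = x := by
      rw [← old_act, FOI.wa_pi]
      exact (w.map M.old.π).prod.apply_symm_apply x
    rw [h2, ← old_act, FOI.wa_pi] at h1
    exact h1
  · rintro ⟨s, hs, h⟩
    refine ⟨s, hs, fun x => ?_⟩
    have h1 := h ((w.map M.old.π).prod x)
    rw [Equiv.Perm.mul_apply, inv_ap] at h1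
    rw [← old_act, ← old_act, FOI.wa_pi, FOI.wa_pi]
    exact h1

theorem classesR {d : ℕ} {A : Type} (M : Pre d A) :
    classes (fun v w => ∃ s t : ℝ, (s = 1 ∨ s = -1) ∧
      ∀ x, M.r (act M.q v x) = s * M.r (act M.q w x) + t) = M.old.HR.relIndex M.old.C := by
  refine card_words M.old.π M.old.sq M.old.HR _ fun v w => ?_
  constructor
  · rintro ⟨s, t, hs, h⟩
    refine ⟨s, t, hs, fun x => ?_⟩
    have h1 := h ((w.map M.old.π).prod⁻¹ x)
    have h2 : act M.q w ((w.map M.old.π).prod⁻¹ x) = x := by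
      rw [← old_act, FOI.wa_pi]
      exact (w.map M.old.π).prod.apply_symm_apply x
    rw [h2, ← old_act, FOI.wa_pi] at h1
    exact h1
  · rintro ⟨s, t, hs, h⟩
    refine ⟨s, t, hs, fun x => ?_⟩
    have h1 := h ((w.map M.old.π).prod x)
    rw [Equiv.Perm.mul_apply, inv_ap] at h1
    rw [← old_act, ← old_act, FOI.wa_pi, FOI.wa_pi]
    exact h1

/-! ### the signs of kind I -/

/-- the sign of a unit -/
theorem sgn_eq (s0 : ℤˣ) (j : ℕ) :
    sgn (Lib_helper64.FO.sg s0) j = Lib_helper64.FO.sg (FOI.sgI s0 j) := by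
  unfold sgn FOI.sgI
  by_cases h0 : j = 0
  · rw [if_pos h0, if_pos h0]
  · rw [if_neg h0, if_neg h0]
    by_cases h1 : j = 1
    · rw [if_pos h1, if_pos h1]
      simp [Lib_helper64.FO.sg]
    · rw [if_neg h1, if_neg h1]
      simp [Lib_helper64.FO.sg]

theorem sg_mul (s t : ℤˣ) :
    Lib_helper64.FO.sg (s * t) = Lib_helper64.FO.sg s * Lib_helper64.FO.sg t := by
  simp only [Lib_helper64.FO.sg, Units.val_mul, Int.cast_mul]

theorem sg_sq (s : ℤˣ) : Lib_helper64.FO.sg s * Lib_helper64.FO.sg s = 1 := by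
  rcases Int.units_eq_one_or s with rfl | rfl <;> simp [Lib_helper64.FO.sg]

theorem act_sgn {d : ℕ} (s0 : ℤˣ) (w : List (Fin d)) (t : ℝ) :
    act (fun (j : Fin d) t => sgn (Lib_helper64.FO.sg s0) j * t) w t =
      Lib_helper64.FO.sg ((w.map fun j : Fin d => FOI.sgI s0 j).prod) * t := by
  induction w with
  | nil => simp [act, Lib_helper64.FO.sg]
  | cons j w ih =>
    rw [List.map_cons, List.prod_cons, sg_mul, mul_assoc, ← ih, ← sgn_eq]
    rfl

theorem classesI {d : ℕ} {A : Type} (M : Pre d A) (s0 : ℤˣ) :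
    classes (fun v w => ∀ x,
      act (fun (j : Fin d) t => sgn (Lib_helper64.FO.sg s0) j * t) v (M.r (act M.q v x)) =
      act (fun (j : Fin d) t => sgn (Lib_helper64.FO.sg s0) j * t) w (M.r (act M.q w x))) =
    M.old.HI.relIndex (M.old.CI s0) := by
  have hfst : ∀ w : List (Fin d), ((w.map fun j : Fin d => (M.old.π j, FOI.sgI s0 j)).prod).1 =
      (w.map M.old.π).prod := by
    intro w
    induction w with
    | nil => rfl
    | cons j w ih =>
      rw [List.map_cons, List.map_cons, List.prod_cons, List.prod_cons, Prod.fst_mul, ih]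
  have hsnd : ∀ w : List (Fin d), ((w.map fun j : Fin d => (M.old.π j, FOI.sgI s0 j)).prod).2 =
      (w.map fun j : Fin d => FOI.sgI s0 j).prod := by
    intro w
    induction w with
    | nil => rfl
    | cons j w ih =>
      rw [List.map_cons, List.map_cons, List.prod_cons, List.prod_cons, Prod.snd_mul, ih]
  refine card_words (fun j : Fin d => (M.old.π j, FOI.sgI s0 j)) (fun j => ?_) M.old.HI _
    fun v w => ?_
  · rw [Prod.mk_mul_mk, M.old.sq]
    congr 1
    exact Int.units_mul_self _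
  · have hmem : ∀ z : Equiv.Perm A × ℤˣ, z ∈ M.old.HI ↔
        ∀ a, M.r (z.1 a) = Lib_helper64.FO.sg z.2 * M.r a := fun z => Iff.rfl
    rw [hmem, Prod.fst_mul, Prod.snd_mul, Prod.fst_inv, Prod.snd_inv, hfst, hfst, hsnd, hsnd,
      Int.units_inv_eq_self, sg_mul]
    constructor
    · intro h x
      have h1 := h ((w.map M.old.π).prod⁻¹ x)
      have h2 : act M.q w ((w.map M.old.π).prod⁻¹ x) = x := by
        rw [← old_act, FOI.wa_pi]
        exact (w.map M.old.π).prod.apply_symm_apply x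
      rw [h2, act_sgn, act_sgn, ← old_act, FOI.wa_pi] at h1
      rw [Equiv.Perm.mul_apply]
      have h3 := sg_sq (v.map fun j : Fin d => FOI.sgI s0 j).prod
      rw [mul_assoc, ← h1, ← mul_assoc, h3, one_mul]
    · intro h x
      have h1 := h ((w.map M.old.π).prod x)
      rw [Equiv.Perm.mul_apply, inv_ap] at h1
      rw [act_sgn, act_sgn, ← old_act, ← old_act, FOI.wa_pi, FOI.wa_pi, h1, ← mul_assoc,
        ← mul_assoc, sg_sq, one_mul]

end

end KOR
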