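import Mathlib

/-!
# k-orbit realizations of regular polytopes: polytopes, realizations, data, models
-/

namespace KOR

open scoped RealInnerProductSpace

noncomputable section

/-- Euclidean `d`-space -/
abbrev E (d : ℕ) := EuclideanSpace ℝ (Fin d)

/-! ## Regular polytopes and their realizations -/

/-- The poset `P` with the rank function `rk` is a regular polytope of rank `d`, finite or infinite:
there are a least face of rank `-1` and a greatest face of rank `d`, ranks increase strictly, every
flag (maximal chain) has a face of each rank `-1, …, d`, between two incident faces whose ranks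
differ by `2` there are exactly two faces, every section of rank at least `2` is connected, and the
automorphism group acts transitively on the flags. -/
structure RegularPolytope (d : ℕ) {P : Type} [PartialOrder P] (rk : P → ℤ) : Prop where
  bot : ∃ b : P, (∀ x, b ≤ x) ∧ rk b = -1
  top : ∃ t : P, (∀ x, x ≤ t) ∧ rk t = d
  strict : ∀ x y : P, x < y → rk x < rk y
  flags : ∀ (C : Flag P) (i : ℤ), -1 ≤ i → i ≤ d → ∃ x ∈ C, rk x = i
  diamond : ∀ x y : P, x < y → rk y = rk x + 2 → Nat.card {z : P // x < z ∧ z < y} = 2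
  connected : ∀ x y : P, x < y → rk x + 3 ≤ rk y → ∀ z w : P, x < z → z < y → x < w → w < y →
    Relation.ReflTransGen (fun a b => x < b ∧ b < y ∧ (a ≤ b ∨ b ≤ a)) z w
  regular : ∀ C D : Flag P, ∃ γ : P ≃o P, γ • C = D

/-- The type in which the images of the faces of rank `m` live: a vertex goes to a point, a face of
rank `m + 1` to the set of the images of its faces of rank `m`. -/
def Img (d : ℕ) : ℕ → Type
  | 0 => E d
  | m + 1 => Set (Img d m)

/-- the image of the face `F` of rank `m` under the realization with vertex map `f` -/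
def img {d : ℕ} {P : Type} [PartialOrder P] (rk : P → ℤ) (f : P → E d) : (m : ℕ) → P → Img d m
  | 0, F => f F
  | m + 1, F => {x | ∃ G : P, rk G = (m : ℤ) ∧ G ≤ F ∧ img rk f m G = x}

/-- The realization is faithful: the induced map on the faces of rank `m` is injective, for all
`m ≥ 0`. -/
def Faithful {d : ℕ} {P : Type} [PartialOrder P] (rk : P → ℤ) (f : P → E d) : Prop :=
  ∀ (m : ℕ) (F G : P), rk F = (m : ℤ) → rk G = (m : ℤ) → img rk f m F = img rk f m G → F = G

/-- The flags `C` and `D` are equivalent under the symmetry group of the realization: some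
automorphism induced by an isometry takes `C` to `D`. -/
def SameOrbit {d : ℕ} {P : Type} [PartialOrder P] (rk : P → ℤ) (f : P → E d) (C D : Flag P) :
    Prop :=
  ∃ (γ : P ≃o P) (T : E d ≃ᵢ E d), (∀ v, rk v = 0 → T (f v) = f (γ v)) ∧ γ • C = D

/-- the images of the vertices form a discrete set -/
def Discrete {d : ℕ} {P : Type} [PartialOrder P] (rk : P → ℤ) (f : P → E d) : Prop :=
  DiscreteTopology (f '' {v | rk v = 0})

/-- a `k`-orbit realization: discrete, faithful, `k` orbits of the symmetry group on the flags -/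
def IsOrbitRealization {d : ℕ} {P : Type} [PartialOrder P] (k : ℕ) (rk : P → ℤ) (f : P → E d) :
    Prop :=
  Discrete rk f ∧ Faithful rk f ∧ Nat.card (Quot (SameOrbit rk f)) = k

/-! ## Words and mixing data -/

/-- A word acts on `x`: its letters act from the right to the left. -/
def act {d : ℕ} {α : Type} (φ : Fin d → α → α) (w : List (Fin d)) (x : α) : α := w.foldr φ x

/-- A mixing datum: a string of `d` involutions (or identities) `q j` of a set `A` acting
transitively, all except `q 0` fixing the base point `a`, and a function `r` on `A`; the elements of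
`A` are distinguished by `r`. -/
structure Datum (d : ℕ) (A : Type) where
  q : Fin d → A → A
  a : A
  r : A → ℝ
  sq : ∀ j x, q j (q j x) = x
  comm : ∀ i j : Fin d, i.val + 2 ≤ j.val → ∀ x, q i (q j x) = q j (q i x)
  fix : ∀ j : Fin d, 1 ≤ j.val → q j a = a
  trans : ∀ x, ∃ w : List (Fin d), act q w a = x
  sep : ∀ x y, (∀ w : List (Fin d), r (act q w x) = r (act q w y)) → x = y

/-- the number of classes of words under the relation `R` -/
def classes {d : ℕ} (R : List (Fin d) → List (Fin d) → Prop) : ℕ := Nat.card (Quot R)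

/-! ## The models -/

/-- The regular simplex with vertices `v 0, …, v n` in the subspace `I`: the base vertex is `v 0`, and
`g j` exchanges `v j` and `v (j + 1)`. -/
def Simplex {D : ℕ} (n : ℕ) (I : Submodule ℝ (E D)) (y : E D) (g : ℕ → (E D ≃ₗᵢ[ℝ] E D)) : Prop :=
  ∃ v : Fin (n + 1) → E D, (∀ i, v i ∈ I) ∧
    (∀ i j, ⟪v i, v j⟫ = if i = j then (1 : ℝ) else -1 / n) ∧ y = v 0 ∧
    ∀ (j : Fin n) (i : Fin (n + 1)), g j (v i) = v (Equiv.swap j.castSucc j.succ i)

/-- The cube with vertices `± u 0 ± … ± u (n - 1)` in the subspace `I`: the base vertex is the sum of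
all `u i`, `g 0` changes the sign of `u 0`, and `g j` with `j ≥ 1` exchanges `u (j - 1)` and
`u j`. -/
def Cube {D : ℕ} (n : ℕ) (I : Submodule ℝ (E D)) (y : E D) (g : ℕ → (E D ≃ₗᵢ[ℝ] E D)) : Prop :=
  ∃ u : Fin n → E D, (∀ i, u i ∈ I) ∧ Orthonormal ℝ u ∧ y = ∑ i, u i ∧
    ∀ j i : Fin n, g j (u i) =
      if j.val = 0 then (if i = j then - u i else u i)
      else u (Equiv.swap ⟨j.val - 1, by omega⟩ j i)

/-- The cross-polytope with vertices `± u i` in the subspace `I`: the base vertex is `u 0`, `g j`
with `j < n - 1` exchanges `u j` and `u (j + 1)`, and `g (n - 1)` changes the sign of `u (n - 1)`;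
moreover `g 1` multiplies the `u i` with `i ≥ 3` by the sign `ε`. -/
def Cross {D : ℕ} (n : ℕ) (ε : ℝ) (I : Submodule ℝ (E D)) (y : E D)
    (g : ℕ → (E D ≃ₗᵢ[ℝ] E D)) : Prop :=
  ∃ u : Fin n → E D, (∀ i, u i ∈ I) ∧ Orthonormal ℝ u ∧ (∀ h : 0 < n, y = u ⟨0, h⟩) ∧
    ∀ j i : Fin n, g j (u i) =
      if h : j.val + 1 < n then
        (if j.val = 1 ∧ 3 ≤ i.val then ε • u i else u (Equiv.swap j ⟨j.val + 1, h⟩ i))
      else (if i = j then - u i else u i)

/-- one of the three models in the subspace `I` of dimension `n` -/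
def Model {D : ℕ} (n : ℕ) (ε : ℝ) (I : Submodule ℝ (E D)) (y : E D)
    (g : ℕ → (E D ≃ₗᵢ[ℝ] E D)) : Prop :=
  Module.finrank ℝ I = n ∧ (Simplex n I y g ∨ Cube n I y g ∨ Cross n ε I y g)

/-! ## Affine maps -/

/-- the map `h` about the point `z` -/
def about {d : ℕ} (z : E d) (h : E d → E d) (v : E d) : E d := z + h (v - z)

/-- the signs `s 0 = s0`, `s 1 = -1`, `s j = 1` for `j ≥ 2` -/
def sgn (s0 : ℝ) (j : ℕ) : ℝ := if j = 0 then s0 else if j = 1 then -1 else 1

/-- the affine maps of kind I: `β j = s j g j`, about the point `z` for `j = 0` -/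
def betaI {d : ℕ} (s0 : ℝ) (g : ℕ → (E d ≃ₗᵢ[ℝ] E d)) (z : E d) (j : Fin d) : E d → E d :=
  if j.val = 0 then about z fun v => s0 • g 0 v else fun v => sgn s0 j • g j v

/-- the affine maps of kind R: `β j = s j g (j - 1)`, `s 1 = s1`, `s j = 1` for `j ≥ 2`, and `β 0` is
the point reflection in `z`, or the reflection with root `y` about `z` -/
def betaR {d : ℕ} (b : Bool) (s1 : ℝ) (g : ℕ → (E d ≃ₗᵢ[ℝ] E d)) (y z : E d) (j : Fin d) :
    E d → E d :=
  if j.val = 0 then about z (if b then fun v => v - (2 * ⟪y, v⟫) • y else fun v => -v)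
  else fun v => (if j.val = 1 then s1 else 1) • g (j - 1 : ℕ) v

end

end KOR
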