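import Pool.Agent.KOR.B2

/-!
# Reduction of a datum, the chain of the groups generated by the last involutions, pure words
-/

namespace KOR

open scoped RealInnerProductSpace

noncomputable section

variable {d : ℕ} {A : Type}

theorem act_append {α : Type} (φ : Fin d → α → α) (v w : List (Fin d)) (x : α) :
    act φ (v ++ w) x = act φ v (act φ w x) := List.foldr_append ..

theorem act_cons {α : Type} (φ : Fin d → α → α) (j : Fin d) (w : List (Fin d)) (x : α) :
    act φ (j :: w) x = φ j (act φ w x) := rfl

/-! ### reduction -/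

/-- the elements that are not distinguished by `r` -/
def Pre.st (M : Pre d A) : Setoid A where
  r x y := ∀ w : List (Fin d), M.r (act M.q w x) = M.r (act M.q w y)
  iseqv := ⟨fun _ _ => rfl, fun h w => (h w).symm, fun h1 h2 w => (h1 w).trans (h2 w)⟩

theorem st_q (M : Pre d A) (j : Fin d) {x y : A} (h : M.st.r x y) : M.st.r (M.q j x) (M.q j y) := by
  intro w
  have := h (w ++ [j])
  rw [act_append, act_append] at this
  exact this

/-- the involutions of the reduced datum -/
def Pre.rq (M : Pre d A) (j : Fin d) : Quotient M.st → Quotient M.st :=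
  Quotient.map (M.q j) fun _ _ h => st_q M j h

theorem act_rq (M : Pre d A) (w : List (Fin d)) (x : A) :
    act M.rq w (Quotient.mk M.st x) = Quotient.mk M.st (act M.q w x) := by
  induction w with
  | nil => rfl
  | cons j w ih =>
    rw [act_cons, ih]
    rfl

/-- the reduced datum -/
def Pre.red (M : Pre d A) : Datum d (Quotient M.st) where
  q := M.rq
  a := Quotient.mk M.st M.a
  r := Quotient.lift M.r fun _ _ h => h []
  sq j x := by
    induction x using Quotient.inductionOn with
    | h x =>
      show Quotient.mk M.st (M.q j (M.q j x)) = Quotient.mk M.st x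
      rw [M.sq]
  comm i j hij x := by
    induction x using Quotient.inductionOn with
    | h x =>
      show Quotient.mk M.st (M.q i (M.q j x)) = Quotient.mk M.st (M.q j (M.q i x))
      rw [M.comm i j hij]
  fix j hj := by
    show Quotient.mk M.st (M.q j M.a) = Quotient.mk M.st M.a
    rw [M.fix j hj]
  trans x := by
    induction x using Quotient.inductionOn with
    | h x =>
      obtain ⟨w, hw⟩ := M.trans x
      exact ⟨w, by rw [act_rq, hw]⟩
  sep x y h := by
    induction x using Quotient.inductionOn with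
    | h x =>
      induction y using Quotient.inductionOn with
      | h y =>
        refine Quotient.sound fun w => ?_
        have := h w
        rw [act_rq, act_rq] at this
        exact this

theorem red_r (M : Pre d A) (w : List (Fin d)) (x : A) :
    M.red.r (act M.red.q w (Quotient.mk M.st x)) = M.r (act M.q w x) := by
  show M.red.r (act M.rq w (Quotient.mk M.st x)) = M.r (act M.q w x)
  rw [act_rq]
  rfl

theorem red_all (M : Pre d A) {p : Quotient M.st → Prop} :
    (∀ x, p x) ↔ ∀ x : A, p (Quotient.mk M.st x) :=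
  ⟨fun h x => h _, fun h x => Quotient.inductionOn x h⟩

/-! ### the chain -/

/-- the group generated by the `q j` with `i ≤ j` -/
def Pre.CC (M : Pre d A) (i : ℕ) : Subgroup (Equiv.Perm A) :=
  Subgroup.closure {p | ∃ j : Fin d, i ≤ j.val ∧ M.old.π j = p}

theorem CC_anti (M : Pre d A) {i j : ℕ} (h : i ≤ j) : M.CC j ≤ M.CC i :=
  Subgroup.closure_mono fun _ ⟨l, hl, e⟩ => ⟨l, h.trans hl, e⟩

theorem mem_CC (M : Pre d A) {i : ℕ} {j : Fin d} (h : i ≤ j.val) : M.old.π j ∈ M.CC i :=
  Subgroup.subset_closure ⟨j, h, rfl⟩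

theorem CC_comm (M : Pre d A) {i : ℕ} {j : Fin d} (h : j.val + 2 ≤ i) {p : Equiv.Perm A}
    (hp : p ∈ M.CC i) : M.old.π j * p = p * M.old.π j := by
  have h1 : M.CC i ≤ Subgroup.centralizer ({M.old.π j} : Set (Equiv.Perm A)) := by
    rw [Pre.CC, Subgroup.closure_le]
    rintro _ ⟨l, hl, rfl⟩
    rw [SetLike.mem_coe, Subgroup.mem_centralizer_iff]
    intro h' hh
    rw [Set.mem_singleton_iff] at hh
    subst hh
    exact M.old.comm j l (h.trans hl)
  exact Subgroup.mem_centralizer_iff.1 (h1 hp) _ rfl

theorem CC_fix (M : Pre d A) {i : ℕ} (hi : 1 ≤ i) {p : Equiv.Perm A} (hp : p ∈ M.CC i) :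
    p M.a = M.a := by
  refine Subgroup.closure_induction (p := fun p _ => p M.a = M.a) ?_ rfl ?_ ?_ hp
  · rintro _ ⟨j, hj, rfl⟩
    exact M.fix j (hi.trans hj)
  · intro p q _ _ h1 h2
    rw [Equiv.Perm.mul_apply, h2, h1]
  · intro p _ h
    rw [Equiv.Perm.inv_eq_iff_eq, h]

theorem CC_triv (M : Pre d A) {i : ℕ} (hi : 1 ≤ i) (h : M.CC i ≤ M.CC (i + 1)) :
    ∀ p ∈ M.CC i, p = 1 := by
  have key : ∀ w : List (Fin d), ∀ p ∈ M.CC i, p (act M.q w M.a) = act M.q w M.a := by
    intro w
    induction w with
    | nil => exact fun p hp => CC_fix M hi hp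
    | cons j w ih =>
      intro p hp
      rw [act_cons]
      show p (M.old.π j (act M.q w M.a)) = M.old.π j (act M.q w M.a)
      rcases le_or_gt i j.val with hj | hj
      · have h1 := ih ((M.old.π j)⁻¹ * p * M.old.π j)
          (mul_mem (mul_mem (inv_mem (mem_CC M hj)) hp) (mem_CC M hj))
        rw [Equiv.Perm.mul_apply, Equiv.Perm.mul_apply, Equiv.Perm.inv_eq_iff_eq] at h1
        exact h1
      · have h1 := CC_comm M (j := j) (i := i + 1) (by omega) (h hp)
        have h2 := DFunLike.congr_fun h1 (act M.q w M.a)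
        rw [Equiv.Perm.mul_apply, Equiv.Perm.mul_apply, ih p hp] at h2
        exact h2.symm
  intro p hp
  ext x
  obtain ⟨w, hw⟩ := M.trans x
  rw [← hw, key w p hp]
  rfl

theorem CC_card (M : Pre d A) (hf : Finite (M.CC 1)) {m : Fin d} (hm : M.old.π m ≠ 1) :
    ∀ n i, 1 ≤ i → i + n = m.val → 2 ^ (n + 1) ≤ Nat.card (M.CC i) := by
  have hfi : ∀ i, 1 ≤ i → Finite (M.CC i) := fun i hi =>
    Finite.of_injective _ (Subgroup.inclusion_injective (CC_anti M hi))
  intro n
  induction n with
  | zero =>
    intro i hi him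
    have := hfi i hi
    rw [zero_add, pow_one]
    have h1 : Nontrivial (M.CC i) :=
      ⟨⟨1, one_mem _⟩, ⟨M.old.π m, mem_CC M (by omega)⟩, fun e => hm (congrArg Subtype.val e).symm⟩
    exact Finite.one_lt_card
  | succ n ih =>
    intro i hi him
    have := hfi i hi
    have h1 := ih (i + 1) (by omega) (by omega)
    have h2 : M.CC (i + 1) ≤ M.CC i := CC_anti M (Nat.le_succ i)
    obtain ⟨c, hc⟩ := Subgroup.card_dvd_of_le h2
    have hpos : 0 < Nat.card (M.CC i) := Nat.card_pos
    have hc2 : 2 ≤ c := by
      rcases Nat.lt_or_ge c 2 with h3 | h3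
      · exfalso
        have h4 : c = 0 ∨ c = 1 := by omega
        rcases h4 with rfl | rfl
        · omega
        · rw [mul_one] at hc
          have h5 : M.CC (i + 1) = M.CC i := Subgroup.eq_of_le_of_card_ge h2 hc.le
          exact hm (CC_triv M hi h5.ge _ (mem_CC M (by omega)))
      · exact h3
    rw [hc, pow_succ]
    exact Nat.mul_le_mul h1 hc2

/-- the number of nontrivial involutions -/
theorem chain (M : Pre d A) {K : ℕ} (hf : Finite (M.CC 1)) (hK : Nat.card (M.CC 1) ≤ K)
    (m : Fin d) (hm : 1 ≤ m.val) (h : K < 2 ^ m.val) : ∀ x, M.q m x = x := by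
  by_contra hcon
  have hm' : M.old.π m ≠ 1 := by
    intro e
    refine hcon fun x => ?_
    have := DFunLike.congr_fun e x
    exact this
  have h1 := CC_card M hf hm' (m.val - 1) 1 le_rfl (by omega)
  rw [Nat.sub_add_cancel hm] at h1
  omega

end

end KOR
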