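import Pool.Agent.KOR.C1

/-!
# Pure words, the number of the elements of the group generated by the `q j`, `j ≥ 1`
-/

namespace KOR

open scoped RealInnerProductSpace

noncomputable section

variable {d : ℕ} {A : Type}

/-- all letters are at least `1` -/
def up1 (v : List (Fin d)) : Prop := ∀ j ∈ v, 1 ≤ j.val

/-- the parity of the number of the letters `1` -/
def e1 (v : List (Fin d)) : Bool := v.foldr (fun j b => if j.val = 1 then !b else b) false

theorem up1_nil : up1 ([] : List (Fin d)) := fun _ h => absurd h List.not_mem_nil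

theorem up1_cons {j : Fin d} {v : List (Fin d)} : up1 (j :: v) ↔ 1 ≤ j.val ∧ up1 v := by
  simp [up1]

theorem up1_append {v w : List (Fin d)} : up1 (v ++ w) ↔ up1 v ∧ up1 w := by
  simp only [up1, List.mem_append]
  exact ⟨fun h => ⟨fun j hj => h j (Or.inl hj), fun j hj => h j (Or.inr hj)⟩,
    fun h j hj => hj.elim (h.1 j) (h.2 j)⟩

theorem up1_reverse {v : List (Fin d)} : up1 v.reverse ↔ up1 v := by
  simp [up1]

theorem e1_cons_one {j : Fin d} (h : j.val = 1) (v : List (Fin d)) : e1 (j :: v) = !e1 v := by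
  simp [e1, h]

theorem e1_cons_ne {j : Fin d} (h : j.val ≠ 1) (v : List (Fin d)) : e1 (j :: v) = e1 v := by
  simp [e1, h]

section

variable {Z : Type} {φ : Fin d → Z → Z} {S : Set Z}

theorem act_mem (hS : ∀ j : Fin d, 1 ≤ j.val → ∀ z ∈ S, φ j z ∈ S) {v : List (Fin d)} (hv : up1 v)
    {z : Z} (hz : z ∈ S) : act φ v z ∈ S := by
  induction v with
  | nil => exact hz
  | cons j v ih =>
    rw [up1_cons] at hv
    exact hS j hv.1 _ (ih hv.2)

theorem act_rev (hS : ∀ j : Fin d, 1 ≤ j.val → ∀ z ∈ S, φ j z ∈ S)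
    (hsq : ∀ j : Fin d, 1 ≤ j.val → ∀ z ∈ S, φ j (φ j z) = z) {v : List (Fin d)} (hv : up1 v)
    {z : Z} (hz : z ∈ S) : act φ v.reverse (act φ v z) = z := by
  induction v with
  | nil => rfl
  | cons j v ih =>
    rw [up1_cons] at hv
    rw [List.reverse_cons, act_append]
    show act φ v.reverse (φ j (φ j (act φ v z))) = z
    rw [hsq j hv.1 _ (act_mem hS hv.2 hz)]
    exact ih hv.2

theorem q_rev (M : Pre d A) (v : List (Fin d)) (x : A) : act M.q v.reverse (act M.q v x) = x := by
  induction v with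
  | nil => rfl
  | cons j v ih =>
    rw [List.reverse_cons, act_append]
    show act M.q v.reverse (M.q j (M.q j (act M.q v x))) = x
    rw [M.sq]
    exact ih

/-- pure words for the letters at least `2` -/
theorem pure_letter (M : Pre d A)
    (l : ℕ) (hl : ∀ j : Fin d, l ≤ j.val → ∀ x, M.q j x = x) (hld : l < d)
    (braid : ∀ j j' : Fin d, 2 ≤ j.val → j'.val = j.val + 1 → j.val < l → ∀ z ∈ S,
      φ j z = φ j' (φ j (φ j' (φ j (φ j' z)))))
    (hS : ∀ j : Fin d, 1 ≤ j.val → ∀ z ∈ S, φ j z ∈ S) :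
    ∀ (n : ℕ) (j : Fin d), 2 ≤ j.val → l ≤ j.val + n → ∃ t : List (Fin d), up1 t ∧
      (∀ x, act M.q t x = x) ∧ ∀ z ∈ S, act φ t z = φ j z := by
  intro n
  induction n with
  | zero =>
    intro j hj hjl
    exact ⟨[j], by rw [up1_cons]; exact ⟨by omega, up1_nil⟩, fun x => hl j hjl x, fun z _ => rfl⟩
  | succ n ih =>
    intro j hj hjl
    rcases le_or_gt l j.val with h | h
    · exact ⟨[j], by rw [up1_cons]; exact ⟨by omega, up1_nil⟩, fun x => hl j h x, fun z _ => rfl⟩
    · obtain ⟨t, h1, h2, h3⟩ := ih ⟨j.val + 1, by omega⟩ (by simp; omega) (by simp; omega)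
      refine ⟨[⟨j.val + 1, by omega⟩, j] ++ (t ++ [j, ⟨j.val + 1, by omega⟩]), ?_, fun x => ?_,
        fun z hz => ?_⟩
      · rw [up1_append, up1_append]
        refine ⟨?_, h1, ?_⟩
        · rw [up1_cons, up1_cons]
          exact ⟨by simp, by omega, up1_nil⟩
        · rw [up1_cons, up1_cons]
          exact ⟨by omega, by simp, up1_nil⟩
      · rw [act_append, act_append, h2]
        show M.q _ (M.q j (M.q j (M.q _ x))) = x
        rw [M.sq, M.sq]
      · rw [act_append, act_append]
        have h4 : act φ [j, (⟨j.val + 1, by omega⟩ : Fin d)] z ∈ S :=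
          act_mem hS (by rw [up1_cons, up1_cons]; exact ⟨by omega, by simp, up1_nil⟩) hz
        rw [h3 _ h4]
        exact (braid j ⟨j.val + 1, by omega⟩ hj rfl h z hz).symm

/-- pure words for two words with the same parity -/
theorem pure_word (M : Pre d A) (one : Fin d) (hone : one.val = 1)
    (l : ℕ) (hl : ∀ j : Fin d, l ≤ j.val → ∀ x, M.q j x = x) (hld : l < d)
    (braid : ∀ j j' : Fin d, 2 ≤ j.val → j'.val = j.val + 1 → j.val < l → ∀ z ∈ S,
      φ j z = φ j' (φ j (φ j' (φ j (φ j' z)))))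
    (hS : ∀ j : Fin d, 1 ≤ j.val → ∀ z ∈ S, φ j z ∈ S)
    (hsq : ∀ j : Fin d, 1 ≤ j.val → ∀ z ∈ S, φ j (φ j z) = z) {v v' : List (Fin d)} (hv : up1 v)
    (hv' : up1 v') (he : e1 v = e1 v') :
    ∃ x : List (Fin d), up1 x ∧ (∀ a, act M.q x a = a) ∧
      ∀ z ∈ S, act φ (x ++ v) z = act φ v' z := by
  have key : ∀ v : List (Fin d), up1 v → ∃ t : List (Fin d), up1 t ∧ (∀ x, act M.q t x = x) ∧
      ∀ z ∈ S, act φ v z = act φ t (if e1 v = true then φ one z else z) := by
    intro v hv
    induction v with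
    | nil => exact ⟨[], up1_nil, fun _ => rfl, fun z _ => rfl⟩
    | cons j v ih =>
      rw [up1_cons] at hv
      obtain ⟨t, h1, h2, h3⟩ := ih hv.2
      by_cases hj : j.val = 1
      · have ej : j = one := Fin.ext (by rw [hj, hone])
        refine ⟨[one] ++ (t ++ [one]), ?_, fun x => ?_, fun z hz => ?_⟩
        · have ho : up1 [one] := by rw [up1_cons]; exact ⟨by omega, up1_nil⟩
          rw [up1_append, up1_append]
          exact ⟨ho, h1, ho⟩
        · rw [act_append, act_append, h2]
          exact M.sq one x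
        · rw [act_cons, h3 z hz, e1_cons_one hj, act_append, act_append, ej]
          show φ one (act φ t _) = φ one (act φ t (φ one _))
          congr 2
          cases e1 v with
          | true => simp
          | false => simpa using (hsq one (by omega) z hz).symm
      · obtain ⟨s, h4, h5, h6⟩ := pure_letter M l hl hld braid hS l j (by omega) (by omega)
        refine ⟨s ++ t, by rw [up1_append]; exact ⟨h4, h1⟩, fun x => ?_, fun z hz => ?_⟩
        · rw [act_append, h2, h5]
        · rw [act_cons, h3 z hz, e1_cons_ne hj, act_append, h6]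
          refine act_mem hS h1 ?_
          by_cases hc : e1 v = true
          · rw [if_pos hc]
            exact hS one (by omega) z hz
          · rw [if_neg hc]
            exact hz
  obtain ⟨t, h1, h2, h3⟩ := key v hv
  obtain ⟨t', h1', h2', h3'⟩ := key v' hv'
  refine ⟨t' ++ t.reverse, ?_, fun a => ?_, fun z hz => ?_⟩
  · rw [up1_append, up1_reverse]
    exact ⟨h1', h1⟩
  · rw [act_append, h2']
    have := q_rev M t a
    rwa [h2] at this
  · have hz' : (if e1 v = true then φ one z else z) ∈ S := by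
      by_cases hc : e1 v = true
      · rw [if_pos hc]
        exact hS one (by omega) z hz
      · rw [if_neg hc]
        exact hz
    rw [act_append, act_append, h3 z hz, act_rev hS hsq h1 hz', h3' z hz, he]

end

/-! ### the count -/

theorem CC_word (M : Pre d A) {p : Equiv.Perm A} (hp : p ∈ M.CC 1) :
    ∃ v : List (Fin d), up1 v ∧ ∀ x, act M.q v x = p x := by
  refine Subgroup.closure_induction (p := fun p _ => ∃ v : List (Fin d), up1 v ∧
    ∀ x, act M.q v x = p x) ?_ ⟨[], up1_nil, fun _ => rfl⟩ ?_ ?_ hp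
  · rintro _ ⟨j, hj, rfl⟩
    exact ⟨[j], by rw [up1_cons]; exact ⟨hj, up1_nil⟩, fun _ => rfl⟩
  · rintro p q _ _ ⟨v, hv, h1⟩ ⟨w, hw, h2⟩
    refine ⟨v ++ w, by rw [up1_append]; exact ⟨hv, hw⟩, fun x => ?_⟩
    rw [act_append, h2, h1, Equiv.Perm.mul_apply]
  · rintro p _ ⟨v, hv, h1⟩
    refine ⟨v.reverse, by rw [up1_reverse]; exact hv, fun x => ?_⟩
    have h2 := q_rev M v (p⁻¹ x)
    rw [h1] at h2
    have h3 : p (p⁻¹ x) = x := p.apply_symm_apply x
    rw [h3] at h2
    exact h2

theorem count (M : Pre d A) (R : List (Fin d) → List (Fin d) → Prop) {k : ℕ} (hk : k ≠ 0)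
    (hR : classes R = k) (σ : List (Fin d) → Bool)
    (h : ∀ v v' : List (Fin d), up1 v → up1 v' → Quot.mk R v = Quot.mk R v' → e1 v = e1 v' →
      σ v = σ v' → ∀ x, act M.q v x = act M.q v' x) :
    Finite (M.CC 1) ∧ Nat.card (M.CC 1) ≤ 4 * k := by
  have hfin : Finite (Quot R) := by
    rw [classes] at hR
    exact Nat.finite_of_card_ne_zero (by rw [hR]; exact hk)
  choose w hw1 hw2 using fun p : M.CC 1 => CC_word M p.2
  let F : M.CC 1 → Quot R × Bool × Bool := fun p => (Quot.mk R (w p), e1 (w p), σ (w p))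
  have hF : Function.Injective F := by
    intro p q e
    simp only [F, Prod.mk.injEq] at e
    apply Subtype.ext
    ext x
    rw [← hw2 p, ← hw2 q]
    exact h _ _ (hw1 p) (hw1 q) e.1 e.2.1 e.2.2 x
  refine ⟨Finite.of_injective F hF, ?_⟩
  have h1 := Nat.card_le_card_of_injective F hF
  rw [Nat.card_prod, Nat.card_prod] at h1
  have h2 : Nat.card (Quot R) = k := hR
  have h3 : Nat.card Bool = 2 := by simp
  rw [h2, h3] at h1
  omega

/-- the step from `r ∘ q_v = r ∘ q_v'` to `q_v = q_v'` -/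
theorem sep_step (M : Datum d A) {V b G : List (Fin d) → E d} {c : E d}
    (hV : ∀ v w, V v = V w → ∀ u, V (u ++ v) = V (u ++ w))
    (hVf : ∀ w, V w = c + b w + M.r (act M.q w M.a) • G w) (hG : ∀ w, G w ≠ 0)
    {v v' x : List (Fin d)} (hx : ∀ a, act M.q x a = a)
    (hb : ∀ w u, b (w ++ ((x ++ v) ++ u)) = b (w ++ (v' ++ u)))
    (hg : ∀ w u, G (w ++ ((x ++ v) ++ u)) = G (w ++ (v' ++ u)))
    (hr : ∀ a, M.r (act M.q v a) = M.r (act M.q v' a)) :
    ∀ a, act M.q v a = act M.q v' a := by
  intro a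
  apply M.sep
  intro w
  obtain ⟨u, rfl⟩ := M.trans a
  have h1 : V ((x ++ v) ++ u) = V (v' ++ u) := by
    have h2 := hb [] u
    have h3 := hg [] u
    rw [List.nil_append, List.nil_append] at h2 h3
    rw [hVf, hVf, h2, h3, act_append, act_append, act_append, hx, hr]
  have h2 := hV _ _ h1 w
  rw [hVf, hVf, hb w u, hg w u] at h2
  have h3 : (M.r (act M.q (w ++ ((x ++ v) ++ u)) M.a) -
      M.r (act M.q (w ++ (v' ++ u)) M.a)) • G (w ++ (v' ++ u)) = 0 := by
    rw [sub_smul]
    exact sub_eq_zero.2 (add_left_cancel h2)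
  have h4 := (smul_eq_zero.1 h3).resolve_right (hG _)
  have h5 := sub_eq_zero.1 h4
  rw [act_append, act_append, act_append, hx, act_append, act_append] at h5
  exact h5

end

end KOR
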