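import Pool.Agent.KOR.C2
import Pool.Agent.FOI.MOS
import Pool.Agent.FOI.MOC

/-!
# Squares and braid relations of the models
-/

namespace KOR

open FOI
open scoped RealInnerProductSpace

noncomputable section

theorem swap3 {α : Type} [DecidableEq α] {a b c : α} (hab : a ≠ b) (hac : a ≠ c) (hbc : b ≠ c)
    (i : α) : Equiv.swap a b i = Equiv.swap b c (Equiv.swap a b (Equiv.swap b c
      (Equiv.swap a b (Equiv.swap b c i)))) := by
  by_cases h1 : i = a
  · subst h1
    rw [Equiv.swap_apply_left, Equiv.swap_apply_of_ne_of_ne hab hac, Equiv.swap_apply_left,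
      Equiv.swap_apply_left, Equiv.swap_apply_of_ne_of_ne hac.symm hbc.symm,
      Equiv.swap_apply_right]
  · by_cases h2 : i = b
    · subst h2
      rw [Equiv.swap_apply_right, Equiv.swap_apply_left,
        Equiv.swap_apply_of_ne_of_ne hac.symm hbc.symm, Equiv.swap_apply_right,
        Equiv.swap_apply_right, Equiv.swap_apply_of_ne_of_ne hab hac]
    · by_cases h3 : i = c
      · subst h3
        rw [Equiv.swap_apply_of_ne_of_ne h1 h2, Equiv.swap_apply_right, Equiv.swap_apply_right,
          Equiv.swap_apply_of_ne_of_ne hab hac, Equiv.swap_apply_left, Equiv.swap_apply_left]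
      · rw [Equiv.swap_apply_of_ne_of_ne h1 h2, Equiv.swap_apply_of_ne_of_ne h2 h3,
          Equiv.swap_apply_of_ne_of_ne h1 h2, Equiv.swap_apply_of_ne_of_ne h2 h3,
          Equiv.swap_apply_of_ne_of_ne h1 h2, Equiv.swap_apply_of_ne_of_ne h2 h3]

variable {D n : ℕ} {ε : ℝ} {I : Submodule ℝ (E D)} {y : E D} {g : ℕ → (E D ≃ₗᵢ[ℝ] E D)}

/-- a property of vectors of `I` that is preserved by linear combinations holds on `I` if it holds
on a spanning set of the model -/
structure Facts (n : ℕ) (ε : ℝ) (I : Submodule ℝ (E D)) (g : ℕ → (E D ≃ₗᵢ[ℝ] E D)) : Prop where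
  inv : ∀ j, j < n → ∀ v ∈ I, g j v ∈ I
  sq : ∀ j, j < n → ∀ v ∈ I, g j (g j v) = v
  braid : ∀ j, (2 ≤ j ∨ (1 ≤ j ∧ ε = 1)) → j + 3 ≤ n → ∀ v ∈ I,
    g j v = g (j + 1) (g j (g (j + 1) (g j (g (j + 1) v))))

theorem facts_sim (hI : Module.finrank ℝ I = n) (h : SimM n I y g) : Facts n ε I g := by
  obtain ⟨v, hv, hg, -, hgv⟩ := h
  have hspan := FOK.EA.span_v hg hI hv
  have hgv' : ∀ (j : ℕ) (hj : j < n) (i : Fin (n + 1)), g j (v i) =
      v (Equiv.swap (⟨j, hj⟩ : Fin n).castSucc (⟨j, hj⟩ : Fin n).succ i) :=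
    fun j hj i => hgv ⟨j, hj⟩ i
  have ind : ∀ {p : E D → Prop}, p 0 → (∀ i, p (v i)) → (∀ x z, p x → p z → p (x + z)) →
      (∀ (c : ℝ) x, p x → p (c • x)) → ∀ x ∈ I, p x := by
    intro p h0 h1 h2 h3 x hx
    rw [← hspan] at hx
    induction hx using Submodule.span_induction with
    | mem x hx =>
      obtain ⟨i, rfl⟩ := hx
      exact h1 i
    | zero => exact h0
    | add x z _ _ hx hz => exact h2 x z hx hz
    | smul c x _ hx => exact h3 c x hx
  refine ⟨fun j hj => ?_, fun j hj => ?_, fun j hj hj2 => ?_⟩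
  · refine ind ?_ (fun i => ?_) (fun x z hx hz => ?_) fun c x hx => ?_
    · rw [map_zero]; exact zero_mem _
    · rw [hgv' j hj]; exact hv _
    · rw [map_add]; exact add_mem hx hz
    · rw [map_smul]; exact Submodule.smul_mem _ _ hx
  · refine ind ?_ (fun i => ?_) (fun x z hx hz => ?_) fun c x hx => ?_
    · rw [map_zero, map_zero]
    · rw [hgv' j hj, hgv' j hj, Equiv.swap_apply_self]
    · rw [map_add, map_add, hx, hz]
    · rw [map_smul, map_smul, hx]
  · refine ind ?_ (fun i => ?_) (fun x z hx hz => ?_) fun c x hx => ?_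
    · simp only [map_zero]
    · have e1 : (⟨j + 1, by omega⟩ : Fin n).castSucc = (⟨j, by omega⟩ : Fin n).succ := rfl
      rw [hgv' j (by omega), hgv' (j + 1) (by omega), hgv' j (by omega), hgv' (j + 1) (by omega),
        hgv' j (by omega), hgv' (j + 1) (by omega), e1]
      congr 1
      refine swap3 ?_ ?_ ?_ i
      · intro e; have := congrArg Fin.val e; simp at this
      · intro e; have := congrArg Fin.val e; simp at this; try omega
      · intro e; have := congrArg Fin.val e; simp at this
    · simp only [map_add, ← hx, ← hz]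
    · simp only [map_smul, ← hx]

theorem facts_u {u : Fin n → E D} (hI : Module.finrank ℝ I = n) (hu : ∀ i, u i ∈ I)
    (ho : Orthonormal ℝ u)
    (h1 : ∀ j, j < n → ∀ i, g j (u i) ∈ I) (h2 : ∀ j, j < n → ∀ i, g j (g j (u i)) = u i)
    (h3 : ∀ j, (2 ≤ j ∨ (1 ≤ j ∧ ε = 1)) → j + 3 ≤ n → ∀ i,
      g j (u i) = g (j + 1) (g j (g (j + 1) (g j (g (j + 1) (u i)))))) : Facts n ε I g := by
  have hs := MOC.span_u hI hu ho
  refine ⟨fun j hj => ?_, fun j hj => ?_, fun j hj hj2 => ?_⟩
  · refine MOC.ind_I hs ?_ (fun i => h1 j hj i) (fun x z hx hz => ?_) fun c x hx => ?_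
    · rw [map_zero]; exact zero_mem _
    · rw [map_add]; exact add_mem hx hz
    · rw [map_smul]; exact Submodule.smul_mem _ _ hx
  · refine MOC.ind_I hs ?_ (fun i => h2 j hj i) (fun x z hx hz => ?_) fun c x hx => ?_
    · rw [map_zero, map_zero]
    · rw [map_add, map_add, hx, hz]
    · rw [map_smul, map_smul, hx]
  · refine MOC.ind_I hs ?_ (fun i => h3 j hj hj2 i) (fun x z hx hz => ?_) fun c x hx => ?_
    · simp only [map_zero]
    · simp only [map_add, ← hx, ← hz]
    · simp only [map_smul, ← hx]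

theorem facts_cub (hI : Module.finrank ℝ I = n) (h : CubM n I y g) : Facts n ε I g := by
  obtain ⟨u, hu, ho, -, hgu⟩ := h
  have g0 : ∀ (h : 0 < n) (i : Fin n), g 0 (u i) = if i = ⟨0, h⟩ then - u i else u i := by
    intro h i
    have := hgu ⟨0, h⟩ i
    rw [if_pos rfl] at this
    exact this
  have gj : ∀ (j : ℕ) (hj : j + 1 < n) (i : Fin n), g (j + 1) (u i) =
      u (Equiv.swap (⟨j, by omega⟩ : Fin n) ⟨j + 1, hj⟩ i) := by
    intro j hj i
    have := hgu ⟨j + 1, hj⟩ i
    rw [if_neg (by simp)] at this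
    exact this
  refine facts_u hI hu ho (fun j hj i => ?_) (fun j hj i => ?_) fun j hj hj2 i => ?_
  · obtain _ | j := j
    · rw [g0 hj]
      by_cases h : i = ⟨0, hj⟩
      · rw [if_pos h]; exact neg_mem (hu i)
      · rw [if_neg h]; exact hu i
    · rw [gj j hj]; exact hu _
  · obtain _ | j := j
    · rw [g0 hj]
      by_cases h : i = ⟨0, hj⟩
      · rw [if_pos h, map_neg, g0 hj, if_pos h, neg_neg]
      · rw [if_neg h, g0 hj, if_neg h]
    · rw [gj j hj, gj j hj, Equiv.swap_apply_self]
  · obtain _ | j := j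
    · exfalso; omega
    · rw [gj j (by omega), gj (j + 1) (by omega), gj j (by omega), gj (j + 1) (by omega),
        gj j (by omega), gj (j + 1) (by omega)]
      congr 1
      refine swap3 ?_ ?_ ?_ i
      · intro e; have := congrArg Fin.val e; simp at this
      · intro e; have := congrArg Fin.val e; simp at this; try omega
      · intro e; have := congrArg Fin.val e; simp at this

theorem facts_cro (hε : ε = 1 ∨ ε = -1) (hI : Module.finrank ℝ I = n) (h : CroM n ε I y g) :
    Facts n ε I g := by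
  obtain ⟨u, hu, ho, -, hgu⟩ := h
  have hεε : ε * ε = 1 := by rcases hε with rfl | rfl <;> norm_num
  have glast : ∀ (j : ℕ) (hj : j + 1 = n) (i : Fin n), g j (u i) =
      if i = ⟨j, by omega⟩ then - u i else u i := by
    intro j hj i
    have := hgu ⟨j, by omega⟩ i
    rw [dif_neg (by simp; omega)] at this
    exact this
  have gsw : ∀ (j : ℕ) (hj : j + 1 < n) (i : Fin n), (j ≠ 1 ∨ ε = 1) → g j (u i) =
      u (Equiv.swap (⟨j, by omega⟩ : Fin n) ⟨j + 1, hj⟩ i) := by
    intro j hj i h
    have := hgu ⟨j, by omega⟩ i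
    rw [dif_pos hj] at this
    rw [this]
    by_cases h3 : j = 1 ∧ 3 ≤ i.val
    · rw [if_pos h3]
      rcases h with h | h
      · exact absurd h3.1 h
      · rw [h, one_smul, Equiv.swap_apply_of_ne_of_ne]
        · intro e; have := congrArg Fin.val e; simp at this; omega
        · intro e; have := congrArg Fin.val e; simp at this; omega
    · rw [if_neg h3]
  have g1 : ∀ (h1 : 1 + 1 < n) (i : Fin n), 3 ≤ i.val → g 1 (u i) = ε • u i := by
    intro h1 i hi
    have := hgu ⟨1, by omega⟩ i
    rw [dif_pos h1, if_pos ⟨rfl, hi⟩] at this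
    exact this
  have g1' : ∀ (h1 : 1 + 1 < n) (i : Fin n), ¬ 3 ≤ i.val → g 1 (u i) =
      u (Equiv.swap (⟨1, by omega⟩ : Fin n) ⟨2, h1⟩ i) := by
    intro h1 i hi
    have := hgu ⟨1, by omega⟩ i
    rw [dif_pos h1, if_neg fun h => hi h.2] at this
    exact this
  refine facts_u hI hu ho (fun j hj i => ?_) (fun j hj i => ?_) fun j hj hj2 i => ?_
  · rcases Nat.lt_or_ge (j + 1) n with h | h
    · by_cases hj1 : j = 1
      · subst hj1
        by_cases hi : 3 ≤ i.val
        · rw [g1 h i hi]; exact Submodule.smul_mem _ _ (hu i)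
        · rw [g1' h i hi]; exact hu _
      · rw [gsw j h i (Or.inl hj1)]; exact hu _
    · rw [glast j (by omega) i]
      by_cases h : i = ⟨j, by omega⟩
      · rw [if_pos h]; exact neg_mem (hu i)
      · rw [if_neg h]; exact hu i
  · rcases Nat.lt_or_ge (j + 1) n with h | h
    · by_cases hj1 : j = 1
      · subst hj1
        by_cases hi : 3 ≤ i.val
        · rw [g1 h i hi, map_smul, g1 h i hi, smul_smul, hεε, one_smul]
        · rw [g1' h i hi, g1' h _ ?_, Equiv.swap_apply_self]
          rw [Equiv.swap_apply_def]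
          split_ifs
          · simp
          · simp
          · exact hi
      · rw [gsw j h i (Or.inl hj1), gsw j h _ (Or.inl hj1), Equiv.swap_apply_self]
    · rw [glast j (by omega) i]
      by_cases h : i = ⟨j, by omega⟩
      · rw [if_pos h, map_neg, glast j (by omega), if_pos h, neg_neg]
      · rw [if_neg h, glast j (by omega), if_neg h]
  · have hj' : j ≠ 1 ∨ ε = 1 := by
      rcases hj with h | h
      · left; omega
      · right; exact h.2
    have hj1 : j + 1 ≠ 1 ∨ ε = 1 := by left; omega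
    rw [gsw j (by omega) _ hj', gsw (j + 1) (by omega) _ hj1, gsw j (by omega) _ hj',
      gsw (j + 1) (by omega) _ hj1, gsw j (by omega) _ hj', gsw (j + 1) (by omega) _ hj1]
    congr 1
    refine swap3 ?_ ?_ ?_ i
    · intro e; have := congrArg Fin.val e; simp at this
    · intro e; have := congrArg Fin.val e; simp at this; try omega
    · intro e; have := congrArg Fin.val e; simp at this

theorem facts (hε : ε = 1 ∨ ε = -1) (h : Model n ε I y g) : Facts n ε I g := by
  obtain ⟨hI, h | h | h⟩ := h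
  · exact facts_sim hI h
  · exact facts_cub hI h
  · exact facts_cro hε hI h

end

end KOR
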