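import Pool.Agent.KOR.C3
import Pool.Agent.FOL.UDefs

/-!
# The three kinds: from the definitions of the proof to the compact ones
-/

namespace KOR

open scoped RealInnerProductSpace

noncomputable section

/-! ### signs -/

theorem exists_unit {s : ℝ} (h : s = 1 ∨ s = -1) : ∃ t : ℤˣ, Lib_helper64.FO.sg t = s := by
  rcases h with rfl | rfl
  · exact ⟨1, by simp [Lib_helper64.FO.sg]⟩
  · exact ⟨-1, by simp [Lib_helper64.FO.sg]⟩

theorem unit_or (t : ℤˣ) : Lib_helper64.FO.sg t = 1 ∨ Lib_helper64.FO.sg t = -1 := by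
  rcases Int.units_eq_one_or t with rfl | rfl <;> simp [Lib_helper64.FO.sg]

theorem betaI_eq {d : ℕ} (s0 : ℤˣ) (g : ℕ → (E d ≃ₗᵢ[ℝ] E d)) (z : E d) :
    betaI (Lib_helper64.FO.sg s0) g z = FOI.bI s0 g z := by
  funext j
  by_cases h : j.val = 0
  · rw [betaI, FOI.bI, if_pos h, if_pos h]
    rfl
  · rw [betaI, FOI.bI, if_neg h, if_neg h, sgn_eq]

theorem betaR_eq {d : ℕ} (b : Bool) (s1 : ℤˣ) (g : ℕ → (E d ≃ₗᵢ[ℝ] E d)) (y z : E d) :
    betaR b (Lib_helper64.FO.sg s1) g y z = FOI.bR b s1 g y z := by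
  funext j
  by_cases h : j.val = 0
  · rw [betaR, FOI.bR, if_pos h, if_pos h]
    rfl
  · rw [betaR, FOI.bR, if_neg h, if_neg h]

/-! ### general facts -/

theorem quot_exact {α : Type} {R : α → α → Prop} (hR : Equivalence R) {v w : α}
    (h : Quot.mk R v = Quot.mk R w) : R v w := by
  have := Quot.eqvGen_exact h
  rwa [hR.eqvGen_iff] at this

theorem V_inj {d : ℕ} {P : Type} [PartialOrder P] {rk : P → ℤ} {f : P → E d}
    {ρ : Fin d → (P ≃o P)} (hP : RegularPolytope d rk) (hf : Faithful rk f) {F0 : P}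
    (hr : rk F0 = 0) : ∀ v w : List (Fin d),
    f (act (fun j => ρ j) v F0) = f (act (fun j => ρ j) w F0) → ∀ u : List (Fin d),
    f (act (fun j => ρ j) (u ++ v) F0) = f (act (fun j => ρ j) (u ++ w) F0) := by
  have hrk : ∀ v : List (Fin d), rk (act (fun j => ρ j) v F0) = 0 := by
    intro v
    induction v with
    | nil => exact hr
    | cons j v ih =>
      rw [act_cons, rk_aut hP]
      exact ih
  intro v w h u
  have h1 := hf 0 _ _ (by rw [hrk v]; rfl) (by rw [hrk w]; rfl) h
  rw [act_append, act_append, h1]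

theorem log_lt {k j : ℕ} (h : Nat.log 2 k + 3 ≤ j) : 4 * k < 2 ^ j := by
  have h1 : k < 2 ^ (Nat.log 2 k + 1) := Nat.lt_pow_succ_log_self (by norm_num) k
  have h2 : 2 ^ (Nat.log 2 k + 3) ≤ 2 ^ j := Nat.pow_le_pow_right (by norm_num) h
  have h3 : 2 ^ (Nat.log 2 k + 3) = 4 * 2 ^ (Nat.log 2 k + 1) := by ring
  omega

theorem bd_log {k j : ℕ} (h : FOL.bd k ≤ j + 20) : Nat.log 2 k + 3 ≤ j := by
  unfold FOL.bd at h
  nlinarith [Nat.zero_le (Nat.log 2 k)]

theorem bd_sub {k d : ℕ} (h : FOL.bd k ≤ d) : FOL.bd k - 20 + 20 ≤ d ∧ 64 ≤ FOL.bd k := by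
  have : 64 ≤ FOL.bd k := by
    unfold FOL.bd
    nlinarith [Nat.zero_le (Nat.log 2 k), Nat.zero_le k]
  omega

theorem act_fix {d : ℕ} {A : Type} (M : Pre d A) {v : List (Fin d)} (hv : up1 v) :
    act M.q v M.a = M.a := by
  induction v with
  | nil => rfl
  | cons j v ih =>
    rw [up1_cons] at hv
    rw [act_cons, ih hv.2, M.fix j hv.1]

theorem act_iso_ne {d D : ℕ} (g : ℕ → (E D ≃ₗᵢ[ℝ] E D)) (w : List (Fin d)) {y : E D} (hy : y ≠ 0) :
    act (fun j : Fin d => g j) w y ≠ 0 := by
  induction w with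
  | nil => exact hy
  | cons j w ih =>
    rw [act_cons]
    intro h
    exact ih ((g j).map_eq_zero_iff.1 h)

theorem act_prod {d : ℕ} {Z W : Type} (φ : Fin d → Z → Z) (ψ : Fin d → W → W) (v : List (Fin d))
    (z : Z) (w : W) :
    act (fun j (p : Z × W) => (φ j p.1, ψ j p.2)) v (z, w) = (act φ v z, act ψ v w) := by
  induction v with
  | nil => rfl
  | cons j v ih => rw [act_cons, ih]; rfl

/-! ### kind F -/

/-- same function up to sign -/
def RF {d : ℕ} {A : Type} (M : Pre d A) (v w : List (Fin d)) : Prop :=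
  ∃ s : ℝ, (s = 1 ∨ s = -1) ∧ ∀ x, M.r (act M.q v x) = s * M.r (act M.q w x)

theorem RF_eqv {d : ℕ} {A : Type} (M : Pre d A) : Equivalence (RF M) where
  refl v := ⟨1, Or.inl rfl, fun x => by rw [one_mul]⟩
  symm := by
    rintro v w ⟨s, hs, h⟩
    refine ⟨s, hs, fun x => ?_⟩
    rw [h]
    rcases hs with rfl | rfl <;> ring
  trans := by
    rintro u v w ⟨s, hs, h⟩ ⟨t, ht, h'⟩
    refine ⟨s * t, ?_, fun x => by rw [h, h', mul_assoc]⟩
    rcases hs with rfl | rfl <;> rcases ht with rfl | rfl <;> norm_num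

theorem RF_red {d : ℕ} {A : Type} (M : Pre d A) : RF M.red.pre = RF M := by
  funext v w
  apply propext
  refine exists_congr fun s => and_congr_right fun _ => ?_
  rw [red_all M]
  refine forall_congr' fun x => ?_
  have h1 := red_r M v x
  have h2 := red_r M w x
  show M.red.r (act M.red.q v _) = s * M.red.r (act M.red.q w _) ↔ _
  rw [h1, h2]

theorem kindF_of {d k : ℕ} (hk : 2 ≤ k) (hd : FOL.bd k ≤ d) {P : Type} [PartialOrder P]
    {rk : P → ℤ} (hP : RegularPolytope d rk) {f : P → E d} (hf : Faithful rk f) {C : Flag P}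
    {ρ : Fin d → (P ≃o P)} (h : FOI.L.KindF k rk f C ρ) : KindF k rk f C ρ := by
  obtain ⟨F0, hF0, hr, c, y, g, A, M, hA, hq, hmod, hne, hcl, hw⟩ := h
  obtain ⟨hb1, hb2⟩ := bd_sub hd
  have hF : Facts d 1 ⊤ g := facts (Or.inl rfl) hmod
  have hy : y ≠ 0 := FOI.mod_y_ne (by omega) hmod
  -- the reduced datum
  have hcl1 : classes (RF (new M)) = k := by
    have := classesF (new M)
    rw [new_old, hcl] at this
    exact this
  have hcl2 : classes (RF (new M).red.pre) = k := by rw [RF_red]; exact hcl1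
  have hw' : ∀ w : List (Fin d), f (act (fun j => ρ j) w F0) =
      c + (new M).red.r (act (new M).red.q w (new M).red.a) • act (fun j : Fin d => g j) w y := by
    intro w
    have h1 := red_r (new M) w (new M).a
    have h2 : (new M).red.a = Quotient.mk (new M).st (new M).a := rfl
    rw [h2, h1]
    exact hw w
  have hqr : ∀ j : Fin d, FOL.bd k - 20 ≤ j.val → ∀ x, (new M).red.q j x = x := by
    intro j hj x
    induction x using Quotient.inductionOn with
    | h x =>
      show Quotient.mk (new M).st ((new M).q j x) = Quotient.mk (new M).st x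
      have h3 := hq j (by omega)
      have h4 : (new M).q j x = x := DFunLike.congr_fun h3 x
      rw [h4]
  have hrne : (new M).red.r (new M).red.a ≠ 0 := hne M.a0
  generalize hN : (new M).red = N at hcl2 hw' hqr hrne
  have hNr : ∀ x, N.r x ≠ 0 := by
    rw [← hN, red_all (new M)]
    exact fun x => hne x
  have hfin : Finite (Quotient (new M).st) := inferInstance
  -- the count
  have hcount := count N.pre (RF N.pre) (k := k) (by omega) hcl2 (fun _ => true) (by
    intro v v' hv hv' hQ he _
    obtain ⟨s, hs, h1⟩ := quot_exact (RF_eqv N.pre) hQ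
    have h2 := h1 N.pre.a
    rw [act_fix N.pre hv, act_fix N.pre hv'] at h2
    have hs1 : s = 1 := by
      rcases hs with rfl | rfl
      · rfl
      · exfalso
        have : N.pre.r N.pre.a = 0 := by linarith
        exact hrne this
    subst hs1
    obtain ⟨x, -, hx2, hx3⟩ := pure_word (φ := fun j : Fin d => (g j : E d → E d))
      (S := Set.univ) N.pre ⟨1, by omega⟩ rfl (FOL.bd k - 20) hqr (by omega)
      (fun j j' hj hjj hjl z _ => by
        have := hF.braid j.val (Or.inl hj) (by omega) z trivial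
        rw [← hjj] at this
        exact this)
      (fun j _ z _ => trivial) (fun j _ z _ => hF.sq j.val j.isLt z trivial) hv hv' he
    refine sep_step N (V := fun w => f (act (fun j => ρ j) w F0)) (b := fun _ => 0)
      (G := fun w => act (fun j : Fin d => g j) w y) (c := c) (V_inj hP hf hr)
      (fun w => by rw [add_zero]; exact hw' w) (fun w => act_iso_ne g w hy) hx2
      (fun _ _ => rfl) (fun w u => ?_)
      (fun a => by have := h1 a; rw [one_mul] at this; exact this)
    show act _ (w ++ ((x ++ v) ++ u)) y = act _ (w ++ (v' ++ u)) y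
    rw [act_append, act_append, hx3 _ trivial, act_append, act_append])
  refine ⟨F0, hF0, hr, c, y, g, _, N, hfin, fun j hj x => ?_, hmod, hNr, hcl2, hw'⟩
  exact chain N.pre hcount.1 hcount.2 j (by omega) (log_lt hj) x

/-! ### the reduced datum, general part -/

theorem red_facts {d : ℕ} {A : Type} (M : FOI.Datum d A) {b : ℕ}
    (hq : ∀ j : Fin d, b ≤ j.val + 20 → M.π j = 1) :
    (∀ w : List (Fin d), (new M).red.r (act (new M).red.q w (new M).red.a) =
      M.r (FOI.wa (fun j => M.π j) w M.a0)) ∧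
    (∀ j : Fin d, b - 20 ≤ j.val → ∀ x, (new M).red.q j x = x) := by
  constructor
  · intro w
    have h1 := red_r (new M) w (new M).a
    have h2 : (new M).red.a = Quotient.mk (new M).st (new M).a := rfl
    rw [h2, h1]
    rfl
  · intro j hj x
    induction x using Quotient.inductionOn with
    | h x =>
      show Quotient.mk (new M).st ((new M).q j x) = Quotient.mk (new M).st x
      have h3 := hq j (by omega)
      have h4 : (new M).q j x = x := DFunLike.congr_fun h3 x
      rw [h4]

/-! ### kind I -/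

/-- the sign of a word -/
def sw {d : ℕ} (s0 : ℝ) (w : List (Fin d)) (t : ℝ) : ℝ := act (fun (j : Fin d) t => sgn s0 j * t) w t

theorem sw_mul {d : ℕ} {s0 : ℝ} (h0 : s0 = 1 ∨ s0 = -1) (w : List (Fin d)) :
    ∃ s : ℝ, s * s = 1 ∧ ∀ t, sw s0 w t = s * t := by
  induction w with
  | nil => exact ⟨1, by norm_num, fun t => by rw [one_mul]; rfl⟩
  | cons j w ih =>
    obtain ⟨s, hs, h⟩ := ih
    have hj : sgn s0 j * sgn s0 j = 1 := by
      unfold sgn
      split_ifs
      · rcases h0 with rfl | rfl <;> norm_num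
      · norm_num
      · norm_num
    refine ⟨sgn s0 j * s, by linear_combination (s * s) * hj + hs, fun t => ?_⟩
    have h1 : sw s0 (j :: w) t = sgn s0 j * sw s0 w t := rfl
    rw [h1, h, mul_assoc]

theorem sw_up1 {d : ℕ} {s0 : ℝ} {w : List (Fin d)} (hw : up1 w) (t : ℝ) :
    sw s0 w t = if e1 w = true then -t else t := by
  induction w with
  | nil => rfl
  | cons j w ih =>
    rw [up1_cons] at hw
    have h1 : sw s0 (j :: w) t = sgn s0 j * sw s0 w t := rfl
    rw [h1, ih hw.2]
    by_cases hj : j.val = 1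
    · have h2 : sgn s0 j.val = -1 := by rw [hj]; simp [sgn]
      rw [e1_cons_one hj, h2]
      cases e1 w <;> simp
    · have h2 : sgn s0 j.val = 1 := by
        unfold sgn
        rw [if_neg (by omega), if_neg hj]
      rw [e1_cons_ne hj, h2, one_mul]

/-- same function with sign -/
def RI {d : ℕ} {A : Type} (M : Pre d A) (s0 : ℝ) (v w : List (Fin d)) : Prop :=
  ∀ x, sw s0 v (M.r (act M.q v x)) = sw s0 w (M.r (act M.q w x))

theorem RI_eqv {d : ℕ} {A : Type} (M : Pre d A) (s0 : ℝ) : Equivalence (RI M s0) where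
  refl _ _ := rfl
  symm h x := (h x).symm
  trans h1 h2 x := (h1 x).trans (h2 x)

theorem RI_red {d : ℕ} {A : Type} (M : Pre d A) (s0 : ℝ) : RI M.red.pre s0 = RI M s0 := by
  funext v w
  apply propext
  unfold RI
  rw [red_all M]
  refine forall_congr' fun x => ?_
  have h1 := red_r M v x
  have h2 := red_r M w x
  show sw s0 v (M.red.r (act M.red.q v _)) = sw s0 w (M.red.r (act M.red.q w _)) ↔ _
  rw [h1, h2]

theorem kindI_of {d k : ℕ} (hk : 2 ≤ k) (hd : FOL.bd k ≤ d) {P : Type} [PartialOrder P]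
    {rk : P → ℤ} (hP : RegularPolytope d rk) {f : P → E d} (hf : Faithful rk f) {C : Flag P}
    {ρ : Fin d → (P ≃o P)} (h : FOI.L.KindI k rk f C ρ) : KindI k rk f C ρ := by
  obtain ⟨F0, hF0, hr, c, y, l, u0, ε, g, A, M, hA, hq, hε, hmod, hl, hcl, hw⟩ := h
  obtain ⟨hb1, hb2⟩ := bd_sub hd
  have hF : Facts d ε ⊤ g := facts hε hmod
  have hy : y ≠ 0 := FOI.mod_y_ne (by omega) hmod
  set s0 : ℝ := Lib_helper64.FO.sg u0 with hs0
  have hs : s0 = 1 ∨ s0 = -1 := unit_or u0
  obtain ⟨hred, hqr⟩ := red_facts M hq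
  have hcl1 : classes (RI (new M) s0) = k := by
    have := classesI (new M) u0
    rw [new_old, hcl] at this
    exact this
  have hcl2 : classes (RI (new M).red.pre s0) = k := by rw [RI_red]; exact hcl1
  have hw' : ∀ w : List (Fin d), f (act (fun j => ρ j) w F0) = c +
      act (betaI s0 g (l • y)) w 0 +
      (new M).red.r (act (new M).red.q w (new M).red.a) • act (fun j : Fin d => g j) w y := by
    intro w
    rw [hred, betaI_eq]
    exact hw w
  generalize hN : (new M).red = N at hcl2 hw' hqr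
  have hfin : Finite (Quotient (new M).st) := inferInstance
  -- the letters at least one
  have hbeta : ∀ j : Fin d, 1 ≤ j.val → betaI s0 g (l • y) j = fun v => sgn s0 j • g j v := by
    intro j hj
    rw [betaI, if_neg (by omega)]
  have hbeta2 : ∀ j : Fin d, 2 ≤ j.val → betaI s0 g (l • y) j = fun v => g j v := by
    intro j hj
    rw [hbeta j (by omega)]
    funext v
    unfold sgn
    rw [if_neg (by omega), if_neg (by omega), one_smul]
  have hsgn : ∀ j : ℕ, sgn s0 j * sgn s0 j = 1 := by
    intro j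
    unfold sgn
    split_ifs
    · rcases hs with h | h <;> rw [h] <;> norm_num
    · norm_num
    · norm_num
  have hcount := count N.pre (RI N.pre s0) (k := k) (by omega) hcl2 (fun _ => true) (by
    intro v v' hv hv' hQ he _
    have h0 : ∀ x, N.r (act N.q v x) = N.r (act N.q v' x) := by
      intro x
      have h1 := quot_exact (RI_eqv N.pre s0) hQ x
      rw [sw_up1 hv, sw_up1 hv', he] at h1
      by_cases h2 : e1 v' = true
      · rw [if_pos h2, if_pos h2] at h1
        exact neg_injective h1
      · rw [if_neg h2, if_neg h2] at h1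
        exact h1
    obtain ⟨x, -, hx2, hx3⟩ := pure_word
      (φ := fun (j : Fin d) (p : E d × E d) => (betaI s0 g (l • y) j p.1, g j p.2))
      (S := Set.univ) N.pre ⟨1, by omega⟩ rfl (FOL.bd k - 20) hqr (by omega)
      (fun j j' hj hjj hjl z _ => by
        have h1 := hF.braid j.val (Or.inl hj) (by omega) z.1 trivial
        have h2 := hF.braid j.val (Or.inl hj) (by omega) z.2 trivial
        rw [← hjj] at h1 h2
        simp only [hbeta2 j hj, hbeta2 j' (by omega)]
        exact Prod.ext h1 h2)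
      (fun j _ z _ => trivial)
      (fun j hj z _ => by
        have h1 := hF.sq j.val j.isLt z.1 trivial
        have h2 := hF.sq j.val j.isLt z.2 trivial
        simp only [hbeta j hj, map_smul, smul_smul, hsgn, one_smul]
        exact Prod.ext h1 h2) hv hv' he
    have hx4 : ∀ z1 z2 : E d, act (betaI s0 g (l • y)) (x ++ v) z1 =
        act (betaI s0 g (l • y)) v' z1 ∧
        act (fun j : Fin d => g j) (x ++ v) z2 = act (fun j : Fin d => g j) v' z2 := by
      intro z1 z2
      have h1 := hx3 (z1, z2) trivial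
      rw [act_prod (betaI s0 g (l • y)) (fun j : Fin d => (g j : E d → E d)),
        act_prod (betaI s0 g (l • y)) (fun j : Fin d => (g j : E d → E d))] at h1
      exact ⟨congrArg Prod.fst h1, congrArg Prod.snd h1⟩
    refine sep_step N (V := fun w => f (act (fun j => ρ j) w F0))
      (b := fun w => act (betaI s0 g (l • y)) w 0)
      (G := fun w => act (fun j : Fin d => g j) w y) (c := c) (V_inj hP hf hr)
      hw' (fun w => act_iso_ne g w hy) hx2
      (fun w u => ?_) (fun w u => ?_) h0
    · show act _ (w ++ ((x ++ v) ++ u)) 0 = act _ (w ++ (v' ++ u)) 0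
      rw [act_append, act_append, (hx4 _ 0).1, act_append, act_append]
    · show act _ (w ++ ((x ++ v) ++ u)) y = act _ (w ++ (v' ++ u)) y
      rw [act_append, act_append, (hx4 0 _).2, act_append, act_append])
  refine ⟨F0, hF0, hr, c, y, l, s0, ε, g, _, N, hfin, fun j hj x => ?_, hs, hε, hmod, hl, hcl2,
    hw'⟩
  exact chain N.pre hcount.1 hcount.2 j (by omega) (log_lt hj) x

/-! ### kind R -/

/-- same function up to sign and constants -/
def RR {d : ℕ} {A : Type} (M : Pre d A) (v w : List (Fin d)) : Prop :=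
  ∃ s t : ℝ, (s = 1 ∨ s = -1) ∧ ∀ x, M.r (act M.q v x) = s * M.r (act M.q w x) + t

theorem RR_eqv {d : ℕ} {A : Type} (M : Pre d A) : Equivalence (RR M) where
  refl v := ⟨1, 0, Or.inl rfl, fun x => by rw [one_mul, add_zero]⟩
  symm := by
    rintro v w ⟨s, t, hs, h⟩
    refine ⟨s, -s * t, hs, fun x => ?_⟩
    rw [h]
    rcases hs with rfl | rfl <;> ring
  trans := by
    rintro u v w ⟨s, t, hs, h⟩ ⟨s', t', hs', h'⟩
    refine ⟨s * s', s * t' + t, ?_, fun x => by rw [h, h']; ring⟩
    rcases hs with rfl | rfl <;> rcases hs' with rfl | rfl <;> norm_num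

theorem RR_red {d : ℕ} {A : Type} (M : Pre d A) : RR M.red.pre = RR M := by
  funext v w
  apply propext
  refine exists_congr fun s => exists_congr fun t => and_congr_right fun _ => ?_
  rw [red_all M]
  refine forall_congr' fun x => ?_
  have h1 := red_r M v x
  have h2 := red_r M w x
  show M.red.r (act M.red.q v _) = s * M.red.r (act M.red.q w _) + t ↔ _
  rw [h1, h2]

/-- the sign of a word relative to the representative of its class -/
def sigR {d : ℕ} {A : Type} (M : Pre d A) (v : List (Fin d)) : Bool :=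
  @decide (∃ t : ℝ, ∀ x, M.r (act M.q v x) = M.r (act M.q (Quot.mk (RR M) v).out x) + t)
    (Classical.propDecidable _)

theorem sigR_step {d : ℕ} {A : Type} (M : Pre d A) {v v' : List (Fin d)} (hv : up1 v)
    (hv' : up1 v') (hQ : Quot.mk (RR M) v = Quot.mk (RR M) v') (hσ : sigR M v = sigR M v') :
    ∀ x, M.r (act M.q v x) = M.r (act M.q v' x) := by
  have key : ∃ s : ℝ, (∃ t : ℝ, ∀ x, M.r (act M.q v x) =
      s * M.r (act M.q (Quot.mk (RR M) v).out x) + t) ∧
      ∃ t : ℝ, ∀ x, M.r (act M.q v' x) = s * M.r (act M.q (Quot.mk (RR M) v).out x) + t := by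
    by_cases h : ∃ t : ℝ, ∀ x, M.r (act M.q v x) = M.r (act M.q (Quot.mk (RR M) v).out x) + t
    · have h' : ∃ t : ℝ, ∀ x, M.r (act M.q v' x) =
          M.r (act M.q (Quot.mk (RR M) v').out x) + t := by
        have h1 : sigR M v = true := by
          unfold sigR
          exact @decide_eq_true _ (Classical.propDecidable _) h
        rw [hσ] at h1
        unfold sigR at h1
        exact @of_decide_eq_true _ (Classical.propDecidable _) h1
      rw [← hQ] at h'
      refine ⟨1, ?_, ?_⟩
      · obtain ⟨t, ht⟩ := h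
        exact ⟨t, fun x => by rw [one_mul, ht]⟩
      · obtain ⟨t, ht⟩ := h'
        exact ⟨t, fun x => by rw [one_mul, ht]⟩
    · have h' : ¬ ∃ t : ℝ, ∀ x, M.r (act M.q v' x) =
          M.r (act M.q (Quot.mk (RR M) v').out x) + t := by
        intro h2
        have h1 : sigR M v' = true := by
          unfold sigR
          exact @decide_eq_true _ (Classical.propDecidable _) h2
        rw [← hσ] at h1
        unfold sigR at h1
        exact h (@of_decide_eq_true _ (Classical.propDecidable _) h1)
      rw [← hQ] at h'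
      have e1' : Quot.mk (RR M) v = Quot.mk (RR M) (Quot.mk (RR M) v).out := (Quot.out_eq _).symm
      obtain ⟨s, t, hs, h3⟩ := quot_exact (RR_eqv M) e1'
      obtain ⟨s', t', hs', h4⟩ := quot_exact (RR_eqv M) (hQ.symm.trans e1')
      have hs1 : s = -1 := by
        rcases hs with rfl | rfl
        · exact absurd ⟨t, fun x => by rw [h3, one_mul]⟩ h
        · rfl
      have hs2 : s' = -1 := by
        rcases hs' with rfl | rfl
        · exact absurd ⟨t', fun x => by rw [h4, one_mul]⟩ h'
        · rfl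
      subst hs1
      subst hs2
      exact ⟨-1, ⟨t, h3⟩, ⟨t', h4⟩⟩
  obtain ⟨s, ⟨t, h1⟩, ⟨t', h2⟩⟩ := key
  have h3 := h1 M.a
  have h4 := h2 M.a
  rw [act_fix M hv] at h3
  rw [act_fix M hv'] at h4
  have h5 : t = t' := by linarith
  intro x
  rw [h1, h2, h5]

theorem model_yI {D n : ℕ} {ε : ℝ} {I : Submodule ℝ (E D)} {y : E D}
    {g : ℕ → (E D ≃ₗᵢ[ℝ] E D)} (hn : 1 ≤ n) (h : Model n ε I y g) : y ∈ I := by
  obtain ⟨-, h | h | h⟩ := h
  · obtain ⟨v, hv, -, rfl, -⟩ := h
    exact hv 0
  · obtain ⟨u, hu, -, rfl, -⟩ := h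
    exact sum_mem fun i _ => hu i
  · obtain ⟨u, hu, -, hy, -⟩ := h
    rw [hy hn]
    exact hu _

theorem kindR_of {d k : ℕ} (hk : 2 ≤ k) (hd : FOL.bd k ≤ d) {P : Type} [PartialOrder P]
    {rk : P → ℤ} (hP : RegularPolytope d rk) {f : P → E d} (hf : Faithful rk f) {C : Flag P}
    {ρ : Fin d → (P ≃o P)} (h : FOI.L.KindR k rk f C ρ) : KindR k rk f C ρ := by
  obtain ⟨F0, hF0, hr, c, e, y, l, b, u1, g, A, M, hq, he1, hmod, hb, hl, hcl, hw⟩ := h
  obtain ⟨hb1, hb2⟩ := bd_sub hd
  set I : Submodule ℝ (E d) := (ℝ ∙ e)ᗮ with hI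
  have hF : Facts (d - 1) 1 I g := facts (Or.inl rfl) hmod
  have he0 : e ≠ 0 := by
    rintro rfl
    simp at he1
  have hyI : y ∈ I := model_yI (by omega) hmod
  set s1 : ℝ := Lib_helper64.FO.sg u1 with hs1
  have hs : s1 = 1 ∨ s1 = -1 := unit_or u1
  obtain ⟨hred, hqr⟩ := red_facts M hq
  have hcl1 : classes (RR (new M)) = k := by
    have := classesR (new M)
    rw [new_old, hcl] at this
    exact this
  have hcl2 : classes (RR (new M).red.pre) = k := by rw [RR_red]; exact hcl1
  have hw' : ∀ w : List (Fin d), f (act (fun j => ρ j) w F0) = c +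
      act (betaR b s1 g y (l • y)) w 0 +
      (new M).red.r (act (new M).red.q w (new M).red.a) • e := by
    intro w
    rw [hred, betaR_eq]
    exact hw w
  generalize hN : (new M).red = N at hcl2 hw' hqr
  -- the letters
  have hbeta : ∀ j : Fin d, 1 ≤ j.val → ∀ v, betaR b s1 g y (l • y) j v =
      (if j.val = 1 then s1 else 1) • g (j.val - 1) v := by
    intro j hj v
    rw [betaR, if_neg (by omega)]
  have hbeta2 : ∀ j : Fin d, 2 ≤ j.val → ∀ v, betaR b s1 g y (l • y) j v = g (j.val - 1) v := by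
    intro j hj v
    rw [hbeta j (by omega), if_neg (by omega), one_smul]
  have hsgn : ∀ j : Fin d, (if j.val = 1 then s1 else 1) * (if j.val = 1 then s1 else 1) =
      (1 : ℝ) := by
    intro j
    split_ifs
    · rcases hs with h | h <;> rw [h] <;> norm_num
    · norm_num
  have hinv : ∀ j : Fin d, 1 ≤ j.val → ∀ z ∈ I, betaR b s1 g y (l • y) j z ∈ I := by
    intro j hj z hz
    rw [hbeta j hj]
    exact Submodule.smul_mem _ _ (hF.inv _ (by omega) z hz)
  have hact : ∀ u : List (Fin d), act (betaR b s1 g y (l • y)) u 0 ∈ I := by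
    intro u
    induction u with
    | nil => exact zero_mem _
    | cons j u ih =>
      rw [act_cons]
      by_cases hj : j.val = 0
      · rw [betaR, if_pos hj, about]
        have h1 : act (betaR b s1 g y (l • y)) u 0 - l • y ∈ I :=
          sub_mem ih (Submodule.smul_mem _ _ hyI)
        refine add_mem (Submodule.smul_mem _ _ hyI) ?_
        cases b with
        | true => exact sub_mem h1 (Submodule.smul_mem _ _ hyI)
        | false => exact neg_mem h1
      · exact hinv j (by omega) _ ih
  have hcount := count N.pre (RR N.pre) (k := k) (by omega) hcl2 (sigR N.pre) (by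
    intro v v' hv hv' hQ he hσ
    have h0 := sigR_step N.pre hv hv' hQ hσ
    obtain ⟨x, -, hx2, hx3⟩ := pure_word (φ := betaR b s1 g y (l • y))
      (S := (I : Set (E d))) N.pre ⟨1, by omega⟩ rfl (FOL.bd k - 20) hqr (by omega)
      (fun j j' hj hjj hjl z hz => by
        have h1 := hF.braid (j.val - 1) (Or.inr ⟨by omega, rfl⟩) (by omega) z hz
        have h2 : j.val - 1 + 1 = j'.val - 1 := by omega
        rw [h2] at h1
        simp only [hbeta2 j hj, hbeta2 j' (by omega)]
        exact h1)
      (fun j hj z hz => hinv j hj z hz)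
      (fun j hj z hz => by
        have h1 := hF.sq (j.val - 1) (by omega) z hz
        simp only [hbeta j hj, map_smul, smul_smul, hsgn, one_smul]
        exact h1) hv hv' he
    refine sep_step N (V := fun w => f (act (fun j => ρ j) w F0))
      (b := fun w => act (betaR b s1 g y (l • y)) w 0)
      (G := fun _ => e) (c := c) (V_inj hP hf hr)
      hw' (fun _ => he0) hx2
      (fun w u => ?_) (fun _ _ => rfl) h0
    show act _ (w ++ ((x ++ v) ++ u)) 0 = act _ (w ++ (v' ++ u)) 0
    rw [act_append, act_append, hx3 _ (hact u), act_append, act_append])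
  refine ⟨F0, hF0, hr, c, e, y, l, s1, b, g, _, N, fun j hj x => ?_, hs, he1, hmod, hb, hl, hcl2,
    hw'⟩
  exact chain N.pre hcount.1 hcount.2 j (by omega) (log_lt hj) x

end

end KOR
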