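import Pool.Agent.KOR.C4

/-!
# The theorem in the compact definitions, from the theorem of the proof
-/

namespace KOR

open scoped RealInnerProductSpace

noncomputable section

theorem kindF_to {d k : ℕ} {P : Type} [PartialOrder P] {rk : P → ℤ} {f : P → E d} {C : Flag P}
    {ρ : Fin d → (P ≃o P)} (h : KindF k rk f C ρ) : FOI.L.KindF k rk f C ρ := by
  obtain ⟨F0, hF0, hr, c, y, g, A, M, hA, hq, hmod, hne, hcl, hw⟩ := h
  refine ⟨F0, hF0, hr, c, y, g, A, M.pre.old, hA, fun j hj => Equiv.ext fun x => ?_, hmod, hne, ?_,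
    hw⟩
  · exact hq j (bd_log hj) x
  · rw [← classesF M.pre]
    exact hcl

theorem kindI_to {d k : ℕ} {P : Type} [PartialOrder P] {rk : P → ℤ} {f : P → E d} {C : Flag P}
    {ρ : Fin d → (P ≃o P)} (h : KindI k rk f C ρ) : FOI.L.KindI k rk f C ρ := by
  obtain ⟨F0, hF0, hr, c, y, l, s, ε, g, A, M, hA, hq, hs, hε, hmod, hl, hcl, hw⟩ := h
  obtain ⟨s0, rfl⟩ := exists_unit hs
  refine ⟨F0, hF0, hr, c, y, l, s0, ε, g, A, M.pre.old, hA, fun j hj => Equiv.ext fun x => ?_,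
    hε, hmod, hl, ?_, fun w => ?_⟩
  · exact hq j (bd_log hj) x
  · rw [← classesI M.pre]
    exact hcl
  · have := hw w
    rw [betaI_eq] at this
    exact this

theorem kindR_to {d k : ℕ} {P : Type} [PartialOrder P] {rk : P → ℤ} {f : P → E d} {C : Flag P}
    {ρ : Fin d → (P ≃o P)} (h : KindR k rk f C ρ) : FOI.L.KindR k rk f C ρ := by
  obtain ⟨F0, hF0, hr, c, e, y, l, s, b, g, A, M, hq, hs, he, hmod, hb, hl, hcl, hw⟩ := h
  obtain ⟨s1, rfl⟩ := exists_unit hs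
  refine ⟨F0, hF0, hr, c, e, y, l, b, s1, g, A, M.pre.old, fun j hj => Equiv.ext fun x => ?_,
    he, hmod, hb, hl, ?_, fun w => ?_⟩
  · exact hq j (bd_log hj) x
  · rw [← classesR M.pre]
    exact hcl
  · have := hw w
    rw [betaR_eq] at this
    exact this

/-- the theorem -/
def Main (k d : ℕ) : Prop :=
    (∀ (P : Type) [PartialOrder P] (rk : P → ℤ), RegularPolytope d rk →
      ∀ (f : P → E d) (C : Flag P) (ρ : Fin d → (P ≃o P)), IsGens rk C ρ →
        (IsOrbitRealization k rk f ↔ Discrete rk f ∧ Faithful rk f ∧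
          (KindF k rk f C ρ ∨ KindI k rk f C ρ ∨ KindR k rk f C ρ))) ∧
    ((∃ (P : Type) (_ : PartialOrder P) (_ : Finite P) (rk : P → ℤ) (f : P → E d),
      RegularPolytope d rk ∧ IsOrbitRealization k rk f) ↔ Even k) ∧
    (∃ (P : Type) (_ : PartialOrder P) (_ : Infinite P) (rk : P → ℤ) (f : P → E d),
      RegularPolytope d rk ∧ IsOrbitRealization k rk f)

theorem main_of (h : FOI.L.AllStatement) {k d : ℕ} (hk : 2 ≤ k)
    (hd : k + 4 * (Nat.log 2 k + 4) ^ 2 ≤ d) : Main k d := by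
  obtain ⟨h1, h2, h3⟩ := h k d hk hd
  refine ⟨fun P _ rk hP f C ρ hρ => ?_, ?_, ?_⟩
  · rw [isOrb_iff hP, h1 P rk (rp_iff.1 hP) f C ρ hρ]
    constructor
    · rintro ⟨hDi, hf, h⟩
      have hf' := faithful_iff.2 hf
      refine ⟨hDi, hf', ?_⟩
      rcases h with h | h | h
      · exact Or.inl (kindF_of hk hd hP hf' h)
      · exact Or.inr (Or.inl (kindI_of hk hd hP hf' h))
      · exact Or.inr (Or.inr (kindR_of hk hd hP hf' h))
    · rintro ⟨hDi, hf, h⟩
      refine ⟨hDi, faithful_iff.1 hf, ?_⟩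
      rcases h with h | h | h
      · exact Or.inl (kindF_to h)
      · exact Or.inr (Or.inl (kindI_to h))
      · exact Or.inr (Or.inr (kindR_to h))
  · rw [← h2]
    constructor
    · rintro ⟨P, _, hfin, rk, f, hP, hf⟩
      exact ⟨P, _, hfin, rk, f, rp_iff.1 hP, (isOrb_iff hP f).1 hf⟩
    · rintro ⟨P, _, hfin, rk, f, hP, hf⟩
      exact ⟨P, _, hfin, rk, f, rp_iff.2 hP, (isOrb_iff (rp_iff.2 hP) f).2 hf⟩
  · obtain ⟨P, _, hinf, rk, f, hP, hf⟩ := h3
    exact ⟨P, _, hinf, rk, f, rp_iff.2 hP, (isOrb_iff (rp_iff.2 hP) f).2 hf⟩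

end

end KOR
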