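import Pool.Agent.KOR.Base

/-!
# k-orbit realizations of regular polytopes: the three kinds, in terms of a polytope
-/

namespace KOR

open scoped RealInnerProductSpace

noncomputable section

/-- The distinguished generators with respect to the base flag `C`: `ρ j` moves `C` and fixes all its
faces except the one of rank `j`. -/
def IsGens {d : ℕ} {P : Type} [PartialOrder P] (rk : P → ℤ) (C : Flag P) (ρ : Fin d → (P ≃o P)) :
    Prop :=
  ∀ j, ρ j • C ≠ C ∧ ∀ x ∈ C, rk x ≠ (j.val : ℤ) → ρ j x = x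

/-! ## The three kinds of realizations -/

/-- Kind F (the realizations of finite polytopes): the vertex `ρ_w F0` goes to
`c + r (q_w a) g_w y`; up to sign there are `k` functions `r ∘ q_w`. -/
def KindF {d : ℕ} {P : Type} [PartialOrder P] (k : ℕ) (rk : P → ℤ) (f : P → E d) (C : Flag P)
    (ρ : Fin d → (P ≃o P)) : Prop :=
  ∃ F0 ∈ C, rk F0 = 0 ∧ ∃ (c y : E d) (g : ℕ → (E d ≃ₗᵢ[ℝ] E d)) (A : Type) (M : Datum d A),
    Finite A ∧ (∀ j : Fin d, Nat.log 2 k + 3 ≤ j.val → ∀ x, M.q j x = x) ∧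
    Model d 1 ⊤ y g ∧ (∀ x, M.r x ≠ 0) ∧
    classes (fun v w => ∃ s : ℝ, (s = 1 ∨ s = -1) ∧
      ∀ x, M.r (act M.q v x) = s * M.r (act M.q w x)) = k ∧
    ∀ w : List (Fin d), f (act (fun j => ρ j) w F0) =
      c + M.r (act M.q w M.a) • act (fun j => g j) w y

/-- Kind I (infinite polytopes): the vertex `ρ_w F0` goes to `c + β_w(0) + r (q_w a) g_w y`;
`β j = s j g j`, about the point `l y` with `l ≠ 0` for `j = 0`; there are `k` functions
`s_w r ∘ q_w`. -/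
def KindI {d : ℕ} {P : Type} [PartialOrder P] (k : ℕ) (rk : P → ℤ) (f : P → E d) (C : Flag P)
    (ρ : Fin d → (P ≃o P)) : Prop :=
  ∃ F0 ∈ C, rk F0 = 0 ∧ ∃ (c y : E d) (l s0 ε : ℝ) (g : ℕ → (E d ≃ₗᵢ[ℝ] E d)) (A : Type)
    (M : Datum d A),
    Finite A ∧ (∀ j : Fin d, Nat.log 2 k + 3 ≤ j.val → ∀ x, M.q j x = x) ∧
    (s0 = 1 ∨ s0 = -1) ∧ (ε = 1 ∨ ε = -1) ∧ Model d ε ⊤ y g ∧ l ≠ 0 ∧
    classes (fun v w => ∀ x, act (fun j t => sgn s0 j * t) v (M.r (act M.q v x)) =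
      act (fun j t => sgn s0 j * t) w (M.r (act M.q w x))) = k ∧
    ∀ w : List (Fin d), f (act (fun j => ρ j) w F0) =
      c + act (betaI s0 g (l • y)) w 0 + M.r (act M.q w M.a) • act (fun j => g j) w y

/-- Kind R (infinite polytopes): the vertex `ρ_w F0` goes to `c + β_w(0) + r (q_w a) e`; the model is
in the orthogonal complement of the unit vector `e`; up to sign and constants there are `k`
functions `r ∘ q_w`. -/
def KindR {d : ℕ} {P : Type} [PartialOrder P] (k : ℕ) (rk : P → ℤ) (f : P → E d) (C : Flag P)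
    (ρ : Fin d → (P ≃o P)) : Prop :=
  ∃ F0 ∈ C, rk F0 = 0 ∧ ∃ (c e y : E d) (l s1 : ℝ) (b : Bool)
    (g : ℕ → (E d ≃ₗᵢ[ℝ] E d)) (A : Type) (M : Datum d A),
    (∀ j : Fin d, Nat.log 2 k + 3 ≤ j.val → ∀ x, M.q j x = x) ∧ (s1 = 1 ∨ s1 = -1) ∧
    ‖e‖ = 1 ∧ Model (d - 1) 1 (ℝ ∙ e)ᗮ y g ∧ (b = true → Cross (d - 1) 1 (ℝ ∙ e)ᗮ y g) ∧
    l ≠ 0 ∧
    classes (fun v w => ∃ s t : ℝ, (s = 1 ∨ s = -1) ∧
      ∀ x, M.r (act M.q v x) = s * M.r (act M.q w x) + t) = k ∧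
    ∀ w : List (Fin d), f (act (fun j => ρ j) w F0) =
      c + act (betaR b s1 g y (l • y)) w 0 + M.r (act M.q w M.a) • e

end

end KOR
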