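import Pool.Agent.KOR.C5
import Pool.Agent.FOL.UFinal

/-!
# The theorem in the compact definitions
-/

namespace KOR

theorem final {k d : ℕ} (hk : 2 ≤ k) (hd : k + 4 * (Nat.log 2 k + 4) ^ 2 ≤ d) : Main k d :=
  main_of FOI.L.allThm hk hd

end KOR
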